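import Pool.Agent.PP5LZ.Rb

/-!
# LB5, section Z, module Zc (size 4): the zeros with a bad `m`

PROOF.  `PP5Q.good` with the constant `c := a/1000`, `N = R^(1/2)` (`N² = R`, `N^4 = R²`, `N^5 = R^(5/2)`, `N^8 = R^4`), `E = 3 C0² R^(4δ+κ)`, `Y = 3 C0 R^4`, `H = t R^(5/2)`, `u = uu R t l`,
`S = R^a`, `g = R^(a/8)`.  Hypotheses:
`NG C0 T N E G l`: `gh`; `1 ≤ N`, `1 ≤ E`; `R / E ≤ l i` (`l i ≥ R^(1-δ)`); `l i ≤ C0 R^(1+3δ) ≤ E R`; `R / E ≤ T ≤ E R`; `R^4 / E ≤ D` ; `mi2 G = 1 ≤ E`;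
`¬ IsSquare G.det` (`RA.nsq`); `l i ≤ Y`, `1 / Y ≤ T`; `H ≤ E N^5` (`t ≤ R^κ ≤ E`); `u ≤ 3 t^(1/3) R^(-1/2+4δ/3) ≤ E / N`; `u ≤ Y`; `1 ≤ S ≤ N` (`a ≤ 1/2`); `1 ≤ g`;
`√mi3 = 1 ≤ N² / g = R^(1-a/8)`.
Result: `C Y^(a/1000) E^17 N^4 (g S^(-1/4) + 1/g + g N^(-1/20))`; `Y^(a/1000) ≤ 3 C0 R^(4a/1000)`; `E^17 = (3C0²)^17 R^(17(4δ+κ))`;
`g S^(-1/4) = R^(-a/8)`, `1/g = R^(-a/8)`, `g N^(-1/20) = R^(a/8 - 1/40) ≤ R^(-a/8)` (`a ≤ 1/10`).  With `δ ≤ a/10000`, `κ ≤ a/1000` the exponent is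
`2 - a/8 + 4a/1000 + 68a/10000 + 17a/1000 ≤ 2 - a/40`.
-/

set_option autoImplicit false

namespace Pool.Agent.PP5LZ

open Matrix Finset Pool.Agent.PP5B Pool.Agent.PP5

theorem zc (a : ℝ) (ha : 0 < a) (ha1 : a ≤ 1 / 10) (C0 : ℝ) (hC0 : 1 ≤ C0) : ∃ C : ℝ, 1 ≤ C ∧
    ∀ (R δ κ t T : ℝ) (x : Fin 10 → ℤ) (G : Matrix (Fin 4) (Fin 4) ℤ) (l : Fin 4 → ℝ),
    1 ≤ R → 0 ≤ δ → δ ≤ a / 10000 → 0 ≤ κ → κ ≤ a / 1000 → 0 < t → t ≤ R ^ κ →
    ZD C0 R δ T x G l →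
    ∀ V : Finset (Fin 4 → ℤ), (∀ v ∈ V, Ze G l (t * R ^ (5 / 2 : ℝ)) v ∧ ∃ m : Fin 4 → ℤ, Pr4 m ∧
      m ⬝ᵥ v = 0 ∧ (∀ i, |(m i : ℝ)| ≤ uu R t l * l i) ∧ PP5Q.BdM (R ^ a) (uu R t l) G l m) →
    (V.card : ℝ) ≤ C * R ^ (2 - a / 40) := by
  obtain ⟨C, hC1, hgood⟩ := PP5Q.good (a / 1000) (by positivity) C0 hC0
  have hC00 : 0 < C0 := by linarith
  have hC02 : 1 ≤ C0 ^ 2 := one_le_pow₀ hC0
  refine ⟨C * (3 * C0) * ((3 * C0 ^ 2) ^ 17 * 3), ?_, ?_⟩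
  · have h1 : 1 ≤ 3 * C0 := by linarith
    have h2 : 1 ≤ (3 * C0 ^ 2) ^ 17 := one_le_pow₀ (by linarith)
    have h3 : 1 ≤ C * (3 * C0) := by nlinarith
    nlinarith
  intro R δ κ t T x G l hR hδ hδ1 hκ hκ1 ht htR hZ V hV
  have hR0 : 0 < R := by linarith
  have hδ2 : δ ≤ 1 := by linarith
  have hA := ra hC0 hR hδ hδ2 hZ
  have hB := rb hC0 hR hδ hδ2 ht hZ
  have mono : ∀ {p q : ℝ}, p ≤ q → R ^ p ≤ R ^ q := fun h =>
    Real.rpow_le_rpow_of_exponent_le hR h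
  have one : ∀ {p : ℝ}, 0 ≤ p → 1 ≤ R ^ p := fun h => Real.one_le_rpow hR h
  have pos : ∀ p : ℝ, 0 < R ^ p := fun p => Real.rpow_pos_of_pos hR0 p
  obtain ⟨N, hN⟩ : ∃ N : ℝ, N = R ^ (1 / 2 : ℝ) := ⟨_, rfl⟩
  have hN0 : 0 < N := by rw [hN]; exact pos _
  have hN1 : 1 ≤ N := by rw [hN]; exact one (by norm_num)
  have hNk : ∀ k : ℕ, N ^ k = R ^ ((k : ℝ) / 2) := by
    intro k
    rw [hN, ← Real.rpow_natCast, ← Real.rpow_mul hR0.le]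
    congr 1
    ring
  have hN2 : N ^ 2 = R := by
    rw [hNk]
    norm_num
  have hN4 : N ^ 4 = R ^ (2 : ℝ) := by
    rw [hNk]
    norm_num
  have hN5 : N ^ 5 = R ^ (5 / 2 : ℝ) := by
    rw [hNk]
    norm_num
  have hN8 : N ^ 8 = R ^ 4 := by
    have h1 : N ^ 8 = (N ^ 2) ^ 4 := by ring
    rw [h1, hN2]
  obtain ⟨E, hE⟩ : ∃ E : ℝ, E = 3 * C0 ^ 2 * R ^ (4 * δ + κ) := ⟨_, rfl⟩
  have hEx0 : 0 ≤ 4 * δ + κ := by linarith
  have hElow : ∀ p : ℝ, p ≤ 4 * δ + κ → 3 * C0 * R ^ p ≤ E := by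
    intro p hp
    rw [hE]
    have h1 := mono hp
    have h2 : C0 ≤ C0 ^ 2 := by nlinarith
    have h3 := pos p
    exact mul_le_mul (by linarith) h1 h3.le (by positivity)
  have hER : ∀ p : ℝ, p ≤ 4 * δ + κ → R ^ p ≤ E := by
    intro p hp
    refine le_trans ?_ (hElow p hp)
    have := pos p
    nlinarith
  have hEC : C0 ≤ E := by
    have h1 := hElow 0 hEx0
    rw [Real.rpow_zero, mul_one] at h1
    linarith
  have hE1 : 1 ≤ E := by linarith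
  have hE0 : 0 < E := by linarith
  obtain ⟨Y, hY⟩ : ∃ Y : ℝ, Y = 3 * C0 * R ^ (4 : ℝ) := ⟨_, rfl⟩
  have hY1 : 1 ≤ Y := by
    rw [hY]
    have h1 : (1 : ℝ) ≤ R ^ (4 : ℝ) := one (by norm_num)
    nlinarith
  have hY0 : 0 < Y := by linarith
  obtain ⟨H, hH⟩ : ∃ H : ℝ, H = t * R ^ (5 / 2 : ℝ) := ⟨_, rfl⟩
  have hH0 : 0 < H := by rw [hH]; exact mul_pos ht (pos _)
  obtain ⟨u, hu⟩ : ∃ u : ℝ, u = uu R t l := ⟨_, rfl⟩
  have hu0 : 0 < u := by rw [hu]; exact hB.u0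
  have ht3 : t ^ (1 / 3 : ℝ) ≤ R ^ (κ / 3) := by
    calc t ^ (1 / 3 : ℝ) ≤ (R ^ κ) ^ (1 / 3 : ℝ) :=
          Real.rpow_le_rpow ht.le htR (by norm_num)
      _ = R ^ (κ / 3) := by
          rw [← Real.rpow_mul hR0.le]
          congr 1
          ring
  have hu1 : u ≤ 3 * R ^ (κ / 3 + (-(1 / 2) + 4 / 3 * δ)) := by
    rw [hu]
    refine hB.uup.trans ?_
    rw [Real.rpow_add hR0 (κ / 3) (-(1 / 2) + 4 / 3 * δ)]
    have h1 := pos (-(1 / 2) + 4 / 3 * δ)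
    have h2 := mul_le_mul_of_nonneg_right ht3 h1.le
    linarith
  have hNG : PP5Q.NG C0 T N E G l :=
    { gh := hZ.gh
      N1 := hN1
      E1 := hE1
      llo := by
        intro i
        rw [hN2, div_le_iff₀ hE0]
        have h1 := hA.lo i
        have h2 : R = R ^ (1 - δ) * R ^ δ := by
          rw [← Real.rpow_add hR0, sub_add_cancel, Real.rpow_one]
        have h3 := hER δ (by linarith)
        calc R = R ^ (1 - δ) * R ^ δ := h2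
          _ ≤ l i * E := mul_le_mul h1 h3 (pos _).le ((pos _).le.trans h1)
      lup := by
        intro i
        rw [hN2]
        have h1 := hA.lup i
        have h2 : R ^ (1 + 3 * δ) = R ^ (3 * δ) * R := by
          rw [add_comm, Real.rpow_add hR0, Real.rpow_one]
        have h3 := hElow (3 * δ) (by linarith)
        have h4 := pos (3 * δ)
        calc l i ≤ C0 * R ^ (1 + 3 * δ) := h1
          _ = (C0 * R ^ (3 * δ)) * R := by rw [h2]; ring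
          _ ≤ E * R := by
              refine mul_le_mul_of_nonneg_right ?_ hR0.le
              linarith [mul_pos hC00 h4]
      Tlo := by
        rw [hN2, div_le_iff₀ hE0]
        have h1 := hZ.Tlo
        have h2 := hZ.gh.T0
        nlinarith
      Tup := by
        rw [hN2]
        have h1 := hZ.Tup
        nlinarith
      dlo := by
        rw [hN8, div_le_iff₀ hE0]
        have h1 := hA.Dlo
        have h2 := abs_nonneg (G.det : ℝ)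
        nlinarith
      A := by
        rw [hA.m2]
        simpa using hE1 }
  have hlY : ∀ i, l i ≤ Y := by
    intro i
    refine (hA.lup i).trans ?_
    rw [hY]
    have h1 : R ^ (1 + 3 * δ) ≤ R ^ (4 : ℝ) := mono (by linarith)
    have h2 : (0 : ℝ) < R ^ (4 : ℝ) := pos _
    nlinarith
  have hYT : 1 / Y ≤ T := by
    rw [div_le_iff₀ hY0, hY]
    have h1 := hZ.Tlo
    have h2 : (1 : ℝ) ≤ R ^ (4 : ℝ) := one (by norm_num)
    have h3 := hZ.gh.T0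
    have h4 : 1 ≤ C0 * T := hR.trans h1
    nlinarith
  have hHE : H ≤ E * N ^ 5 := by
    rw [hH, hN5]
    refine mul_le_mul_of_nonneg_right ?_ (pos _).le
    exact htR.trans (hER κ (by linarith))
  have huE : u ≤ E / N := by
    rw [le_div_iff₀ hN0, hN]
    have h1 : 3 * R ^ (κ / 3 + (-(1 / 2) + 4 / 3 * δ)) * R ^ (1 / 2 : ℝ)
        = 3 * R ^ (κ / 3 + 4 / 3 * δ) := by
      rw [mul_assoc, ← Real.rpow_add hR0]
      congr 2
      ring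
    have h2 : 3 * R ^ (κ / 3 + 4 / 3 * δ) ≤ E := by
      refine le_trans ?_ (hElow (κ / 3 + 4 / 3 * δ) (by linarith))
      have := pos (κ / 3 + 4 / 3 * δ)
      nlinarith
    calc u * R ^ (1 / 2 : ℝ) ≤ 3 * R ^ (κ / 3 + (-(1 / 2) + 4 / 3 * δ)) * R ^ (1 / 2 : ℝ) :=
          mul_le_mul_of_nonneg_right hu1 (pos _).le
      _ = 3 * R ^ (κ / 3 + 4 / 3 * δ) := h1
      _ ≤ E := h2
  have huY : u ≤ Y := by
    refine hu1.trans ?_
    rw [hY]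
    have h1 : R ^ (κ / 3 + (-(1 / 2) + 4 / 3 * δ)) ≤ R ^ (4 : ℝ) := mono (by linarith)
    have h2 : (0 : ℝ) < R ^ (4 : ℝ) := pos _
    nlinarith
  have hS1 : 1 ≤ R ^ a := one ha.le
  have hSN : R ^ a ≤ N := by rw [hN]; exact mono (by linarith)
  have hg1 : 1 ≤ R ^ (a / 8) := one (by linarith)
  have hmi : √(PP5N.mi3 G : ℝ) ≤ N ^ 2 / R ^ (a / 8) := by
    rw [hA.m3, hN2, le_div_iff₀ (pos _)]
    have h1 : R ^ (a / 8) ≤ R ^ (1 : ℝ) := mono (by linarith)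
    rw [Real.rpow_one] at h1
    simpa using h1
  have key := hgood G l T N E Y H u (R ^ a) (R ^ (a / 8)) hNG hA.nsq hY1 hlY hYT hH0 hHE hu0 huE
    huY hS1 hSN hg1 hmi V (by
      intro v hv
      obtain ⟨h1, m, h2, h3, h4, h5⟩ := hV v hv
      refine ⟨h1.1, h1.2.1, ?_, m, h2, h3, ?_, ?_⟩
      · rw [hH]; exact h1.2.2
      · rw [hu]; exact h4
      · rw [hu]; exact h5)
  refine key.trans ?_
  have hY2 : Y ^ (a / 1000) ≤ 3 * C0 * R ^ (4 * a / 1000) := by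
    rw [hY, Real.mul_rpow (by positivity) (pos _).le, ← Real.rpow_mul hR0.le]
    have h1 : (3 * C0) ^ (a / 1000) ≤ 3 * C0 := by
      calc (3 * C0) ^ (a / 1000) ≤ (3 * C0) ^ (1 : ℝ) :=
            Real.rpow_le_rpow_of_exponent_le (by linarith) (by linarith)
        _ = 3 * C0 := Real.rpow_one _
    have h2 : (4 : ℝ) * (a / 1000) = 4 * a / 1000 := by ring
    rw [h2]
    exact mul_le_mul_of_nonneg_right h1 (pos _).le
  have hE17 : E ^ 17 = (3 * C0 ^ 2) ^ 17 * R ^ (17 * (4 * δ + κ)) := by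
    rw [hE, mul_pow]
    congr 1
    rw [← Real.rpow_natCast, ← Real.rpow_mul hR0.le]
    congr 1
    push_cast
    ring
  have hb1 : R ^ (a / 8) * (R ^ a) ^ (-(1 / 4) : ℝ) = R ^ (-(a / 8)) := by
    rw [← Real.rpow_mul hR0.le, ← Real.rpow_add hR0]
    congr 1
    ring
  have hb2 : 1 / R ^ (a / 8) = R ^ (-(a / 8)) := by
    rw [Real.rpow_neg hR0.le, one_div]
  have hb3 : R ^ (a / 8) * N ^ (-(1 / 20) : ℝ) ≤ R ^ (-(a / 8)) := by
    rw [hN, ← Real.rpow_mul hR0.le, ← Real.rpow_add hR0]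
    exact mono (by linarith)
  have hsum : R ^ (a / 8) * (R ^ a) ^ (-(1 / 4) : ℝ) + 1 / R ^ (a / 8)
      + R ^ (a / 8) * N ^ (-(1 / 20) : ℝ) ≤ 3 * R ^ (-(a / 8)) := by
    rw [hb1, hb2]
    linarith
  have hexp : R ^ (4 * a / 1000) * R ^ (17 * (4 * δ + κ)) * R ^ (2 : ℝ) * R ^ (-(a / 8))
      ≤ R ^ (2 - a / 40) := by
    rw [← Real.rpow_add hR0, ← Real.rpow_add hR0, ← Real.rpow_add hR0]
    exact mono (by linarith)
  have hsum0 : 0 ≤ R ^ (a / 8) * (R ^ a) ^ (-(1 / 4) : ℝ) + 1 / R ^ (a / 8)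
      + R ^ (a / 8) * N ^ (-(1 / 20) : ℝ) := by
    have h1 := pos (a / 8)
    have h2 := pos a
    positivity
  have hC0p : 0 < C := by linarith
  calc C * Y ^ (a / 1000) * (E ^ 17 * N ^ 4 * (R ^ (a / 8) * (R ^ a) ^ (-(1 / 4) : ℝ)
          + 1 / R ^ (a / 8) + R ^ (a / 8) * N ^ (-(1 / 20) : ℝ)))
      ≤ C * (3 * C0 * R ^ (4 * a / 1000)) * (E ^ 17 * N ^ 4 * (3 * R ^ (-(a / 8)))) := by
        refine mul_le_mul (mul_le_mul_of_nonneg_left hY2 hC0p.le)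
          (mul_le_mul_of_nonneg_left hsum (by positivity)) (by positivity) ?_
        have := pos (4 * a / 1000)
        positivity
    _ = C * (3 * C0) * ((3 * C0 ^ 2) ^ 17 * 3) *
          (R ^ (4 * a / 1000) * R ^ (17 * (4 * δ + κ)) * R ^ (2 : ℝ) * R ^ (-(a / 8))) := by
        rw [hE17, hN4]
        ring
    _ ≤ C * (3 * C0) * ((3 * C0 ^ 2) ^ 17 * 3) * R ^ (2 - a / 40) :=
        mul_le_mul_of_nonneg_left hexp (by positivity)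

end Pool.Agent.PP5LZ
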