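import Pool.Agent.PP5LZ.Zp
import Pool.Agent.PP5S.Cne

/-!
# LB5, section Z, module Zd (size 4): the zeros with a good `m`

PROOF.  `K1` from `PP5S.conB hC0`, `K2` from `PP5S.coneB`.  For `v ∈ V` choose `m = mf v`; `N := V.image mf`, `Zs m := V.filter (mf · = m)`; `V.card = ∑_{m ∈ N} (Zs m).card`
(`Finset.card_eq_sum_card_image`).  `PP5S.per_x` with `C = C0`, `Y = t R^(5/2)`, `S = uu R t l`, `Th = θ`, `κ = κp`, `Cd = y^c3` (`y = R^(5/2)`); its hypotheses: `hκl`, `hJ`, `hJκ` from `ZP`;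
`hC1`: `PP5S.dic_C1 h.xg hC1x k4` (`T := y`, `δ := 1/50`, `A := 2`): for `m ∈ B`: `Pr4`, `D2 ≠ 0`, `sl ≤ y^c3`, `|D2 G m| ≤ y^2` (`ZP.all`);
`hN`: `sl G m ≤ R^a ≤ y^c3` (`a ≤ c3`), `u l i ≤ R^a |m i| ≤ 2^J0 |m i|`.
(Compare the proof of `PP5S.one_x` in PP5S/Sh2.lean, which is the same application.)
Result: `∑ ≤ 42 K1 K2 θ (1 + log (1 + Λ²/(T^4 D))) ((u^4 Λ) (1 + H / (T u √D)))`; `log (1 + C0^7)` is a constant; `u^4 Λ ≤ 405 C0^5 t^(4/3) R²` (`ueq`),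
`H / (T u √D) ≤ C0³ t^(2/3)` (`HTS`), `1 + C0³ t^(2/3) ≤ C0³ (1 + t^(2/3))`.  `C = 42 K1 K2 (1 + log (1 + C0^7)) · 405 C0^8`.
-/

set_option autoImplicit false

namespace Pool.Agent.PP5LZ

open Matrix Finset Pool.Agent.PP5B Pool.Agent.PP5

theorem zd {C0 : ℝ} (hC0 : 1 ≤ C0) : ∃ C : ℝ, 0 ≤ C ∧
    ∀ (a c3 δ κ R : ℝ) (h J0 J : ℕ) (κp : ℝ), 0 < a → a ≤ c3 → 0 ≤ δ → δ ≤ 1 / 100 →
    ZP C0 a δ κ R h J0 J κp →
    ∀ (t T θ : ℝ) (x : Fin 10 → ℤ) (G : Matrix (Fin 4) (Fin 4) ℤ) (l : Fin 4 → ℝ),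
    R ^ (-κ) ≤ t → t ≤ R ^ κ → ZD C0 R δ T x G l → 0 ≤ θ →
    C1x (R ^ (5 / 2 : ℝ)) (1 / 50) 2 c3 θ x →
    ∀ V : Finset (Fin 4 → ℤ), (∀ v ∈ V, Ze G l (t * R ^ (5 / 2 : ℝ)) v ∧ ∃ m : Fin 4 → ℤ, Pr4 m ∧
      m ⬝ᵥ v = 0 ∧ (∀ i, |(m i : ℝ)| ≤ uu R t l * l i) ∧ D2 G m ≠ 0 ∧ (sl G m : ℝ) ≤ R ^ a ∧
      ∃ i, uu R t l * l i ≤ R ^ a * |(m i : ℝ)|) →
    (V.card : ℝ) ≤ C * (θ * (t ^ (4 / 3 : ℝ) * (1 + t ^ (2 / 3 : ℝ)) * R ^ 2)) := by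
  classical
  have hC00 : 0 < C0 := by linarith
  obtain ⟨K1, hK1, hcon⟩ := PP5S.conB hC0
  obtain ⟨K2, hK2, hcone, hbox⟩ := PP5S.coneB
  have hlog : 0 ≤ Real.log (1 + C0 ^ 7) := Real.log_nonneg (by
    have : 0 ≤ C0 ^ 7 := by positivity
    linarith)
  refine ⟨42 * K1 * K2 * (1 + Real.log (1 + C0 ^ 7)) * (405 * C0 ^ 8), by positivity, ?_⟩
  intro a c3 δ κ R h J0 J κp ha hac hδ hδ1 hP t T θ x G l ht1 ht2 hZ hθ hC1x V hV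
  have hR := hP.R1
  have hR0 : 0 < R := by linarith
  have ht : 0 < t := lt_of_lt_of_le (Real.rpow_pos_of_pos hR0 _) ht1
  have B := rb hC0 hR hδ (by linarith) ht hZ
  obtain ⟨k1, k2, k5, k6, k7⟩ := hP.all t T x G l ht1 ht2 hZ
  have hyR : R ≤ R ^ (5 / 2 : ℝ) := by
    calc R = R ^ (1 : ℝ) := (Real.rpow_one R).symm
      _ ≤ R ^ (5 / 2 : ℝ) := Real.rpow_le_rpow_of_exponent_le hR (by norm_num)
  have hRa : R ^ a ≤ (R ^ (5 / 2 : ℝ)) ^ c3 :=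
    (Real.rpow_le_rpow hR0.le hyR ha.le).trans
      (Real.rpow_le_rpow_of_exponent_le (hR.trans hyR) hac)
  have hT := hZ.gh.T0
  have hl := hZ.gh.lp
  choose! mf hmf using fun v hv => (hV v hv).2
  have hcard : (V.card : ℝ) =
      ∑ m ∈ V.image mf, ((V.filter (fun v => mf v = m)).card : ℝ) := by
    rw [Finset.card_eq_sum_card_image mf V]
    push_cast
    rfl
  have main := PP5S.per_x (C := C0) hC00 hK1.le hK2.le hcon hcone hbox G hZ.gh.sym hZ.gh.ev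
    hZ.gh.dn T (t * R ^ (5 / 2 : ℝ)) (uu R t l) θ κp l hT (by positivity) B.u0 hl hθ hP.κ0 hP.κ1
    hZ.gh.gram h J0 J hP.hh k1 ((R ^ (5 / 2 : ℝ)) ^ c3) k2 hP.k3 (by
      intro S hS hA
      refine PP5S.dic_C1 hZ.xg (hC1x) hP.k4 S ?_ hA
      intro m hm
      obtain ⟨b1, b2, b3, b4⟩ := hS m hm
      exact ⟨b1, b2, b3, k6 m b4⟩)
    (V.image mf) (by
      intro m hm
      obtain ⟨v, hv, rfl⟩ := Finset.mem_image.1 hm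
      obtain ⟨c1, c2, c3', c4, c5, i, c6⟩ := hmf v hv
      refine ⟨c1, c4, c5.trans hRa, c3', i, c6.trans ?_⟩
      exact mul_le_mul_of_nonneg_right hP.kJ (abs_nonneg _))
    (fun m => V.filter (fun v => mf v = m)) (by
      intro m hm v hv
      rw [Finset.mem_filter] at hv
      obtain ⟨hv1, hv2⟩ := hv
      obtain ⟨⟨z1, z2, z3⟩, -⟩ := hV v hv1
      obtain ⟨c1, c2, -⟩ := hmf v hv1
      refine ⟨z1, z2, ?_, z3⟩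
      rw [← hv2]
      exact c2)
  rw [hcard]
  refine main.trans ?_
  have hΛ0 : 0 < ∏ i, l i := Finset.prod_pos fun i _ => hl i
  have hu0 := B.u0
  have hdR : (0 : ℝ) < |(G.det : ℝ)| := abs_pos.2 (by exact_mod_cast hZ.gh.dn)
  have e1 : Real.log (1 + (∏ i, l i) ^ 2 / (T ^ 4 * |(G.det : ℝ)|)) ≤ Real.log (1 + C0 ^ 7) := by
    apply Real.log_le_log (by positivity)
    linarith
  have e2 : 0 ≤ Real.log (1 + (∏ i, l i) ^ 2 / (T ^ 4 * |(G.det : ℝ)|)) :=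
    Real.log_nonneg (by
      have : 0 ≤ (∏ i, l i) ^ 2 / (T ^ 4 * |(G.det : ℝ)|) := by positivity
      linarith)
  have e3 : 1 + t * R ^ (5 / 2 : ℝ) / (T * uu R t l * √|(G.det : ℝ)|) ≤
      C0 ^ 3 * (1 + t ^ (2 / 3 : ℝ)) := by
    have h1 := B.HTS
    have h2 : 1 ≤ C0 ^ 3 := one_le_pow₀ hC0
    linarith
  have e4 : (uu R t l ^ 4 * ∏ i, l i) *
      (1 + t * R ^ (5 / 2 : ℝ) / (T * uu R t l * √|(G.det : ℝ)|)) ≤
      (405 * C0 ^ 5 * (t ^ (4 / 3 : ℝ) * R ^ 2)) * (C0 ^ 3 * (1 + t ^ (2 / 3 : ℝ))) :=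
    mul_le_mul B.ueq e3 (by positivity) (by positivity)
  calc 42 * K1 * K2 * θ * (1 + Real.log (1 + (∏ i, l i) ^ 2 / (T ^ 4 * |(G.det : ℝ)|))) *
        ((uu R t l ^ 4 * ∏ i, l i) *
          (1 + t * R ^ (5 / 2 : ℝ) / (T * uu R t l * √|(G.det : ℝ)|)))
      ≤ 42 * K1 * K2 * θ * (1 + Real.log (1 + C0 ^ 7)) *
        ((405 * C0 ^ 5 * (t ^ (4 / 3 : ℝ) * R ^ 2)) * (C0 ^ 3 * (1 + t ^ (2 / 3 : ℝ)))) := by
        apply mul_le_mul _ e4 (by positivity) (by positivity)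
        apply mul_le_mul_of_nonneg_left _ (by positivity)
        linarith
    _ = _ := by ring

end Pool.Agent.PP5LZ
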