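import Pool.Agent.PP5LZ.Zb
import Pool.Agent.PP5LZ.Zc
import Pool.Agent.PP5LZ.Zd
import Pool.Agent.LB.Defs

/-!
# LB5, section Z: the statement `StZ`
-/

set_option autoImplicit false

namespace Pool.Agent.PP5LZ

open Matrix Finset Pool.Agent.PP5B Pool.Agent.PP5

theorem zd_of_gz {C0 R δ T : ℝ} {x : LB.V10} {G : Matrix (Fin 4) (Fin 4) ℤ} {l : Fin 4 → ℝ}
    (h : LB.GZ C0 R δ T x G l) : ZD C0 R δ T x G l :=
  ⟨h.xg, h.gh, h.Tlo, h.Tup, h.neg, h.Dlo, h.det, h.prod, h.l0, h.adj⟩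

/-- the zero count: (1) sharp, (2) cheap (corrected form) -/
theorem stz (c3 C0 : ℝ) (hc3 : 0 < c3) (hC0 : 1 ≤ C0) : ∃ κ0 η : ℝ, 0 < κ0 ∧ 0 < η ∧
    ∀ κ : ℝ, 0 < κ → κ ≤ κ0 → ∃ δ C R0 : ℝ, 0 < δ ∧ 0 ≤ C ∧ 1 ≤ R0 ∧ ∀ δ' : ℝ, 0 ≤ δ' → δ' ≤ δ →
    ∀ R : ℝ, R0 ≤ R →
    ∀ (x : LB.V10) (T : ℝ) (G : Matrix (Fin 4) (Fin 4) ℤ) (l : Fin 4 → ℝ), LB.GZ C0 R δ' T x G l →
    ∀ (t : ℝ) (V : Finset (Fin 4 → ℤ)), (∀ v ∈ V, Pr4 v ∧ v ⬝ᵥ (G *ᵥ v) = 0 ∧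
      ∀ i, |(v i : ℝ)| * l i ≤ t * R ^ (5 / 2 : ℝ)) →
    (∀ Θ : LB.V10 → ℝ, LB.CC1 (R ^ (5 / 2 : ℝ)) (1 / 50) 2 c3 Θ → R ^ (-κ) ≤ t → t ≤ R ^ κ →
      (V.card : ℝ) ≤ C * (Θ x * t ^ (4 / 3 : ℝ) * (1 + t ^ (2 / 3 : ℝ)) * R ^ 2 + R ^ (2 - η))) ∧
    (0 < t → t ≤ R ^ κ →
      (V.card : ℝ) ≤ R ^ (κ / 100) * (t ^ (4 / 3 : ℝ) * (1 + t ^ (2 / 3 : ℝ)) * R ^ 2 + 1)) := by
  classical
  set a : ℝ := min c3 (1 / 10) with ha_def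
  have ha : 0 < a := lt_min hc3 (by norm_num)
  have hac : a ≤ c3 := min_le_left _ _
  have ha1 : a ≤ 1 / 10 := min_le_right _ _
  obtain ⟨C2, hC2, hzc⟩ := zc a ha ha1 C0 hC0
  obtain ⟨C3, hC3, hzd⟩ := zd hC0
  refine ⟨a / 1000, a / 40, by positivity, by positivity, ?_⟩
  intro κ hκ hκ0
  have hκ1 : κ ≤ 1 / 10000 := by linarith
  have hδ0 : 0 < κ / 3200 := by positivity
  have hδ1 : κ / 3200 ≤ 1 / 100 := by linarith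
  have hδa : κ / 3200 ≤ a / 10000 := by linarith
  obtain ⟨C1, hC1, hzb⟩ := zb (κ / 400) (by positivity) (by linarith) C0 hC0
  obtain ⟨R1, hR1, hzp⟩ := zp (C0 := C0) (a := a) (δ := κ / 3200) (κ := κ) hC0 ha ha1 hδ0.le hδ1
    hκ.le (by linarith)
  -- `C1 ≤ R ^ (κ / 200)` for large `R`
  obtain ⟨R2, hR2⟩ : ∃ R2 : ℝ, ∀ R : ℝ, R2 ≤ R → C1 ≤ R ^ (κ / 200) := by
    have h := (tendsto_rpow_atTop (show (0 : ℝ) < κ / 200 by positivity)).eventually_ge_atTop C1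
    obtain ⟨R2, hR2⟩ := Filter.eventually_atTop.1 h
    exact ⟨R2, hR2⟩
  refine ⟨κ / 3200, max C3 C2, max (max R1 R2) (max C0 1), hδ0, le_trans hC3 (le_max_left _ _),
    le_trans (le_max_right C0 1) (le_max_right _ _), ?_⟩
  intro δ' hδ' hδ'1 R hR x T G l hGZ t V hV
  have hRR1 : R1 ≤ R := le_trans (le_trans (le_max_left _ _) (le_max_left _ _)) hR
  have hRR2 : R2 ≤ R := le_trans (le_trans (le_max_right _ _) (le_max_left _ _)) hR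
  have hRC : C0 ≤ R := le_trans (le_trans (le_max_left _ _) (le_max_right _ _)) hR
  have hR1' : 1 ≤ R := le_trans (le_trans (le_max_right _ _) (le_max_right _ _)) hR
  have hR0 : 0 < R := by linarith
  -- weaken δ'
  have hZ : ZD C0 R (κ / 3200) T x G l := by
    have h := zd_of_gz hGZ
    refine ⟨h.xg, h.gh, h.Tlo, h.Tup, h.neg, h.Dlo, h.det, h.prod, le_trans ?_ h.l0, h.adj⟩
    exact Real.rpow_le_rpow_of_exponent_le hR1' (by linarith)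
  have hRκ1 : R ^ κ ≤ R := by
    calc R ^ κ ≤ R ^ (1 : ℝ) := Real.rpow_le_rpow_of_exponent_le hR1' (by linarith)
      _ = R := Real.rpow_one R
  have hVZ : ∀ v ∈ V, Ze G l (t * R ^ (5 / 2 : ℝ)) v := fun v hv => hV v hv
  constructor
  · intro Θ hΘ ht1 ht2
    have ht : 0 < t := lt_of_lt_of_le (Real.rpow_pos_of_pos hR0 _) ht1
    -- `C0 ≤ t^(4/3) R²`
    have hbig : C0 ≤ t ^ (4 / 3 : ℝ) * R ^ 2 := by
      have h1 : R ^ (-κ * (4 / 3)) ≤ t ^ (4 / 3 : ℝ) := by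
        rw [Real.rpow_mul hR0.le]
        exact Real.rpow_le_rpow (Real.rpow_nonneg hR0.le _) ht1 (by norm_num)
      have h2 : R ^ (-(1 : ℝ)) ≤ R ^ (-κ * (4 / 3)) :=
        Real.rpow_le_rpow_of_exponent_le hR1' (by linarith)
      have h3 : R ^ (-(1 : ℝ)) * R ^ 2 = R := by
        rw [Real.rpow_neg hR0.le, Real.rpow_one]
        field_simp
      calc C0 ≤ R := hRC
        _ = R ^ (-(1 : ℝ)) * R ^ 2 := h3.symm
        _ ≤ t ^ (4 / 3 : ℝ) * R ^ 2 :=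
          mul_le_mul_of_nonneg_right (le_trans h2 h1) (by positivity)
    set Vb : Finset (Fin 4 → ℤ) := V.filter (fun v => ∃ m : Fin 4 → ℤ, Pr4 m ∧ m ⬝ᵥ v = 0 ∧
      (∀ i, |(m i : ℝ)| ≤ uu R t l * l i) ∧ PP5Q.BdM (R ^ a) (uu R t l) G l m) with hVb
    set Vg : Finset (Fin 4 → ℤ) := V.filter (fun v => ¬ ∃ m : Fin 4 → ℤ, Pr4 m ∧ m ⬝ᵥ v = 0 ∧
      (∀ i, |(m i : ℝ)| ≤ uu R t l * l i) ∧ PP5Q.BdM (R ^ a) (uu R t l) G l m) with hVg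
    have hsum : Vb.card + Vg.card = V.card := by
      rw [hVb, hVg]; exact Finset.card_filter_add_card_filter_not _
    have hb : (Vb.card : ℝ) ≤ C2 * R ^ (2 - a / 40) := by
      refine hzc R (κ / 3200) κ t T x G l hR1' hδ0.le hδa hκ.le hκ0 ht ht2 hZ Vb ?_
      intro v hv
      rw [hVb, Finset.mem_filter] at hv
      exact ⟨hVZ v hv.1, hv.2⟩
    have hDX : PP5C.DX x ≠ 0 := by
      rw [PP5S.DX_eq]; exact ne_of_lt hZ.neg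
    obtain ⟨hh, J0, J, κp, hP⟩ := hzp R hRR1
    have hall := hP.all t T x G l ht1 ht2 hZ
    have hC1x : C1x (R ^ (5 / 2 : ℝ)) (1 / 50) 2 c3 (Θ x) x := hΘ.c1 x hDX hall.2.2.1
    have hg : (Vg.card : ℝ) ≤ C3 * (Θ x * (t ^ (4 / 3 : ℝ) * (1 + t ^ (2 / 3 : ℝ)) * R ^ 2)) := by
      refine hzd a c3 (κ / 3200) κ R hh J0 J κp ha hac hδ0.le hδ1 hP t T (Θ x) x G l ht1 ht2 hZ
        (hΘ.nn x) hC1x Vg ?_
      intro v hv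
      rw [hVg, Finset.mem_filter] at hv
      refine ⟨hVZ v hv.1, ?_⟩
      obtain ⟨m, hm1, hm2, hm3⟩ := pg hC0 hR1' hδ0.le (by linarith) ht hbig hZ (hVZ v hv.1)
      have hnb : ¬ PP5Q.BdM (R ^ a) (uu R t l) G l m := fun hb => hv.2 ⟨m, hm1, hm2, hm3, hb⟩
      unfold PP5Q.BdM at hnb
      push Not at hnb
      obtain ⟨h1, h2, i, h3⟩ := hnb
      exact ⟨m, hm1, hm2, hm3, h1, h2, i, h3.le⟩
    have hVc : (V.card : ℝ) = (Vb.card : ℝ) + (Vg.card : ℝ) := by rw [← hsum]; push_cast; ring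
    rw [hVc]
    have e1 : 0 ≤ Θ x * (t ^ (4 / 3 : ℝ) * (1 + t ^ (2 / 3 : ℝ)) * R ^ 2) := by
      have := hΘ.nn x
      positivity
    have e2 : 0 ≤ R ^ (2 - a / 40) := Real.rpow_nonneg hR0.le _
    have e3 : C3 * (Θ x * (t ^ (4 / 3 : ℝ) * (1 + t ^ (2 / 3 : ℝ)) * R ^ 2)) ≤
        max C3 C2 * (Θ x * (t ^ (4 / 3 : ℝ) * (1 + t ^ (2 / 3 : ℝ)) * R ^ 2)) :=
      mul_le_mul_of_nonneg_right (le_max_left _ _) e1
    have e4 : C2 * R ^ (2 - a / 40) ≤ max C3 C2 * R ^ (2 - a / 40) :=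
      mul_le_mul_of_nonneg_right (le_max_right _ _) e2
    have e5 : max C3 C2 * (Θ x * t ^ (4 / 3 : ℝ) * (1 + t ^ (2 / 3 : ℝ)) * R ^ 2 +
        R ^ (2 - a / 40)) =
        max C3 C2 * (Θ x * (t ^ (4 / 3 : ℝ) * (1 + t ^ (2 / 3 : ℝ)) * R ^ 2)) +
        max C3 C2 * R ^ (2 - a / 40) := by ring
    rw [e5]
    linarith
  · intro ht ht2
    have h := hzb R (κ / 3200) t T x G l hR1' hδ0.le hδ1 ht (le_trans ht2 hRκ1) hZ V hVZ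
    refine le_trans h (mul_le_mul_of_nonneg_right ?_ (by positivity))
    calc C1 * R ^ (κ / 400 + 8 * (κ / 3200)) ≤ R ^ (κ / 200) * R ^ (κ / 400 + 8 * (κ / 3200)) :=
          mul_le_mul_of_nonneg_right (hR2 R hRR2) (Real.rpow_nonneg hR0.le _)
      _ = R ^ (κ / 200 + (κ / 400 + 8 * (κ / 3200))) := (Real.rpow_add hR0 _ _).symm
      _ = R ^ (κ / 100) := by congr 1; ring

/-- `StZ` of Pool/Agent/LB/Defs.lean (v3) -/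
theorem stZ : LB.StZ (1 / 50) 2 := by
  intro c3 C0 hc3 hC0
  obtain ⟨κ0, η, hκ0, hη, h⟩ := stz c3 C0 hc3 hC0
  refine ⟨κ0, η, hκ0, hη, fun κ hκ hκκ => ?_⟩
  obtain ⟨δ, C, R0, hδ, _, hR0, H⟩ := h κ hκ hκκ
  exact ⟨δ, C, R0, hδ, hR0, fun R hR x T G l hG t V hV => H δ hδ.le le_rfl R hR x T G l hG t V hV⟩

end Pool.Agent.PP5LZ
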