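import Pool.Agent.PP5LZ.Rb

/-!
# LB5, section Z, module Bx (size 3): the number of `m`, and the class bound

PROOF of `bxc`.  `#M ≤ ∏ (2 u l i + 1)` (box, `Fintype.piFinset` of `Icc (-⌊u l i⌋) ⌊u l i⌋`).  `u l i ≥ (3 / C0) t^(1/3) R^(-1/2) R^(1-δ) ≥ (3 / C0) R^(-δ)` because
`t^(1/3) R^(1/2) ≥ 1` (`t^(4/3) R² ≥ C0 ≥ 1`), so `1 ≤ C0 R^δ u l i` and each factor is `≤ 3 C0 R^δ u l i` (`C0 R^δ ≥ 1`): `#M ≤ 81 C0^4 R^(4δ) u^4 Λ ≤ 81 · 405 C0^9 R^(4δ) t^(4/3) R²` (`RB.ueq`).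

PROOF of `bxn`.  `PP5Q.nxb` (with `Y = Y0 := 3 C0 R^4`, this `u`): the hypotheses: `l i ≤ C0 R^(1+3δ) ≤ Y0`, `1 / Y0 ≤ T` (`T ≥ R / C0 ≥ 1 / C0`); so
`s #X / u' ≤ C Y0^c (u³ Λ + u² Λ √(l3 / (l0 T)) + (Λ² / T³)^(1/3) l3^(1/3) + u l2 l3 D^(1/4))` (`mi2 G = 1`), and with `H / (T √D) ≤ C0² t R^(-1/2)`:
 `t R^(-1/2) · u³ Λ = 27 t² R²`;
 `u² Λ = (u³ Λ)^(2/3) Λ^(1/3) ≤ 9 t^(2/3) R^(5/3) (C0 R^4)^(1/3)`, `l3 / (l0 T) ≤ C0 R^(1+3δ) C0 / (R^(1-δ) R) = C0² R^(-1+4δ)`: the second term times `t R^(-1/2)` is `≤ 9 C0² t^(5/3) R^(2+2δ)`;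
 `(Λ² / T³)^(1/3) l3^(1/3) ≤ (C0² R^8 C0³ / R³ · C0 R^(1+3δ))^(1/3) = C0² R^(2+δ)`, times `t R^(-1/2)`: `≤ C0² t^(4/3) R^(2+δ)` as `t^(-1/3) ≤ R^(1/2)`;
 `u l2 l3 D^(1/4) ≤ 3 t^(1/3) R^(-1/2+4δ/3) C0² R^(2+6δ) (24 C0^10 R^4)^(1/4)`, times `t R^(-1/2)`: `≤ 9 C0^5 t^(4/3) R^(2+8δ)`.
All are `≤ const · R^(8δ) t^(4/3) (1 + t^(2/3)) R²` (`t^(5/3) = t^(4/3) t^(1/3)`, `t^(1/3) ≤ 1 + t^(2/3)`).
The conclusion is stated for an upper bound `Bd` of the right side of `nxb`.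
-/

set_option autoImplicit false

namespace Pool.Agent.PP5LZ

open Matrix Finset Pool.Agent.PP5B Pool.Agent.PP5

private theorem Bx_card {u : ℝ} {l : Fin 4 → ℝ} (hu : 0 ≤ u) (hl : ∀ i, 0 ≤ l i) (F : ℝ)
    (hF : 2 ≤ F) (hF2 : ∀ i, 2 * (u * l i) + 1 ≤ F * (u * l i)) (M : Finset (Fin 4 → ℤ))
    (hM : ∀ m ∈ M, ∀ i, |(m i : ℝ)| ≤ u * l i) :
    (M.card : ℝ) ≤ F ^ 4 * (u ^ 4 * ∏ i, l i) := by
  have hsub : M ⊆ Fintype.piFinset (fun i : Fin 4 => Finset.Icc (-⌊u * l i⌋) ⌊u * l i⌋) := by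
    intro m hm
    rw [Fintype.mem_piFinset]
    intro i
    have h1 := abs_le.1 (hM m hm i)
    rw [Finset.mem_Icc]
    constructor
    · have h2 : -(m i) ≤ ⌊u * l i⌋ := by
        rw [Int.le_floor]
        push_cast
        linarith [h1.1]
      omega
    · rw [Int.le_floor]
      exact h1.2
  have h1 : (M.card : ℝ) ≤ ∏ i : Fin 4, ((Finset.Icc (-⌊u * l i⌋) ⌊u * l i⌋).card : ℝ) := by
    have h2 := Finset.card_le_card hsub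
    rw [Fintype.card_piFinset] at h2
    exact_mod_cast h2
  have h2 : ∀ i : Fin 4, ((Finset.Icc (-⌊u * l i⌋) ⌊u * l i⌋).card : ℝ) ≤ F * (u * l i) := by
    intro i
    have h3 : 0 ≤ u * l i := mul_nonneg hu (hl i)
    have h4 : 0 ≤ ⌊u * l i⌋ := Int.floor_nonneg.2 h3
    rw [Int.card_Icc]
    have h5 : (((⌊u * l i⌋ + 1 - -⌊u * l i⌋).toNat : ℕ) : ℝ) = 2 * (⌊u * l i⌋ : ℝ) + 1 := by
      have h6 : (((⌊u * l i⌋ + 1 - -⌊u * l i⌋).toNat : ℕ) : ℤ) = 2 * ⌊u * l i⌋ + 1 := by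
        rw [Int.toNat_of_nonneg (by omega)]
        ring
      exact_mod_cast h6
    rw [h5]
    have h7 : (⌊u * l i⌋ : ℝ) ≤ u * l i := Int.floor_le _
    linarith [hF2 i]
  have h3 : ∏ i : Fin 4, ((Finset.Icc (-⌊u * l i⌋) ⌊u * l i⌋).card : ℝ) ≤
      ∏ i : Fin 4, F * (u * l i) :=
    Finset.prod_le_prod (fun i _ => Nat.cast_nonneg _) (fun i _ => h2 i)
  refine h1.trans (h3.trans (le_of_eq ?_))
  rw [Fin.prod_univ_four, Fin.prod_univ_four]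
  ring

private theorem Bx_qr {C0 R t : ℝ} (hC0 : 1 ≤ C0) (hR : 1 ≤ R) (ht : 0 < t)
    (ht2 : C0 ≤ t ^ (4 / 3 : ℝ) * R ^ 2) : 1 ≤ t ^ (1 / 3 : ℝ) * R ^ (1 / 2 : ℝ) := by
  have hR0 : 0 < R := by linarith
  have h1 : (t ^ (1 / 3 : ℝ) * R ^ (1 / 2 : ℝ)) ^ 4 = t ^ (4 / 3 : ℝ) * R ^ 2 := by
    rw [mul_pow, ← Real.rpow_natCast (t ^ (1 / 3 : ℝ)) 4, ← Real.rpow_mul ht.le,
      ← Real.rpow_natCast (R ^ (1 / 2 : ℝ)) 4, ← Real.rpow_mul hR0.le,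
      ← Real.rpow_natCast R 2]
    norm_num
  have h2 : 0 ≤ t ^ (1 / 3 : ℝ) * R ^ (1 / 2 : ℝ) := by positivity
  by_contra h3
  push Not at h3
  have h4 : (t ^ (1 / 3 : ℝ) * R ^ (1 / 2 : ℝ)) ^ 4 < 1 := pow_lt_one₀ h2 h3 (by norm_num)
  rw [h1] at h4
  linarith

theorem bxc {C0 R δ t T : ℝ} {x : Fin 10 → ℤ} {G : Matrix (Fin 4) (Fin 4) ℤ} {l : Fin 4 → ℝ}
    (hC0 : 1 ≤ C0) (hR : 1 ≤ R) (hδ : 0 ≤ δ) (hδ1 : δ ≤ 1 / 100) (ht : 0 < t)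
    (ht2 : C0 ≤ t ^ (4 / 3 : ℝ) * R ^ 2) (h : ZD C0 R δ T x G l) (M : Finset (Fin 4 → ℤ))
    (hM : ∀ m ∈ M, ∀ i, |(m i : ℝ)| ≤ uu R t l * l i) :
    (M.card : ℝ) ≤ 32805 * C0 ^ 9 * (R ^ (4 * δ) * (t ^ (4 / 3 : ℝ) * R ^ 2)) := by
  have hR0 : 0 < R := by linarith
  have hC : 0 < C0 := by linarith
  have hra := ra hC0 hR hδ (by linarith) h
  have hrb := rb hC0 hR hδ (by linarith) ht h
  have hqr := Bx_qr hC0 hR ht ht2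
  have hu := hrb.u0
  have hE1 : 1 ≤ R ^ δ := Real.one_le_rpow hR hδ
  have hl : ∀ i, 0 < l i := h.gh.lp
  have hCE : 1 ≤ C0 * R ^ δ := one_le_mul_of_one_le_of_one_le hC0 hE1
  have h1 : ∀ i, 1 ≤ C0 * R ^ δ * (uu R t l * l i) := by
    intro i
    have e1 : R ^ δ * R ^ (1 - δ) = R := by
      rw [← Real.rpow_add hR0]
      norm_num
    have e2 : R ^ (-(1 / 2) : ℝ) * R = R ^ (1 / 2 : ℝ) := by
      nth_rewrite 2 [← Real.rpow_one R]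
      rw [← Real.rpow_add hR0]
      norm_num
    calc (1 : ℝ) ≤ 3 * (t ^ (1 / 3 : ℝ) * R ^ (1 / 2 : ℝ)) := by linarith
      _ = 3 * (t ^ (1 / 3 : ℝ) * R ^ (-(1 / 2) : ℝ)) * (R ^ δ * R ^ (1 - δ)) := by
          rw [e1, ← e2]
          ring
      _ ≤ (C0 * uu R t l) * (R ^ δ * l i) := by
          refine mul_le_mul hrb.ulo ?_ (by positivity) (by positivity)
          exact mul_le_mul_of_nonneg_left (hra.lo i) (by positivity)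
      _ = C0 * R ^ δ * (uu R t l * l i) := by ring
  have h2 := Bx_card hu.le (fun i => (hl i).le) (3 * (C0 * R ^ δ)) (by linarith) (by
    intro i
    have h3 : 0 < uu R t l * l i := mul_pos hu (hl i)
    have h4 := h1 i
    linarith [mul_le_mul_of_nonneg_right hCE h3.le]) M hM
  refine h2.trans ?_
  have e3 : (R ^ δ) ^ 4 = R ^ (4 * δ) := by
    rw [← Real.rpow_natCast (R ^ δ) 4, ← Real.rpow_mul hR0.le]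
    norm_num
    ring_nf
  calc (3 * (C0 * R ^ δ)) ^ 4 * (uu R t l ^ 4 * ∏ i, l i)
      = 81 * C0 ^ 4 * (R ^ δ) ^ 4 * (uu R t l ^ 4 * ∏ i, l i) := by ring
    _ ≤ 81 * C0 ^ 4 * (R ^ δ) ^ 4 * (405 * C0 ^ 5 * (t ^ (4 / 3 : ℝ) * R ^ 2)) :=
        mul_le_mul_of_nonneg_left hrb.ueq (by positivity)
    _ = 32805 * C0 ^ 9 * (R ^ (4 * δ) * (t ^ (4 / 3 : ℝ) * R ^ 2)) := by
        rw [e3]
        ring

private theorem Bx_cube {a b : ℝ} (hb : 0 ≤ b) (h : a ^ 3 ≤ b ^ 3) : a ≤ b := by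
  by_contra hc
  push Not at hc
  exact absurd h (not_le.2 (pow_lt_pow_left₀ hc hb (by norm_num)))

/-- the polynomial inequality: `t = q ^ 3`, `R = r ^ 2`, `R ^ δ = e ^ 3` -/
private theorem Bx_alg {C q r e u l0 l2 l3 T L D : ℝ} (hC : 1 ≤ C) (hq : 0 < q) (hr : 0 < r)
    (he : 1 ≤ e) (hqr : 1 ≤ q * r) (hu : 0 < u) (h0 : 0 < l0) (h2 : 0 < l2) (h3 : 0 < l3)
    (hT : 0 < T) (hL : 0 < L) (hD : 0 ≤ D)
    (u3 : u ^ 3 * L = 27 * (q ^ 3 * r ^ 5)) (uup : u * r ≤ 3 * (q * e ^ 4)) (Lup : L ≤ C * r ^ 8)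
    (lo : r ^ 2 ≤ l0 * e ^ 3) (lu2 : l2 ≤ C * (r ^ 2 * e ^ 9)) (lu3 : l3 ≤ C * (r ^ 2 * e ^ 9))
    (Tlo : r ^ 2 ≤ C * T) (Dup : D ≤ 24 * C ^ 10 * r ^ 8) :
    C ^ 2 * (q ^ 3 / r) * (u ^ 3 * L * √(1 : ℝ) + u ^ 2 * L * √(l3 * 1 / (l0 * T)) +
      (L ^ 2 / T ^ 3) ^ (1 / 3 : ℝ) * l3 ^ (1 / 3 : ℝ) + u * l2 * l3 * (1 * D) ^ (1 / 4 : ℝ)) ≤
      46 * C ^ 7 * (e ^ 24 * (q ^ 4 * (1 + q ^ 2) * r ^ 4)) := by
  have hC0 : 0 < C := by linarith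
  have he0 : 0 < e := by linarith
  have a1 : u ^ 2 * L ≤ 9 * C * (q ^ 2 * r ^ 6) := by
    refine Bx_cube (by positivity) ?_
    calc (u ^ 2 * L) ^ 3 = (u ^ 3 * L) ^ 2 * L := by ring
      _ = (27 * (q ^ 3 * r ^ 5)) ^ 2 * L := by rw [u3]
      _ ≤ (27 * (q ^ 3 * r ^ 5)) ^ 2 * (C * r ^ 8) := by gcongr
      _ = 729 * (q ^ 6 * r ^ 18) * (C * (1 * 1)) := by ring
      _ ≤ 729 * (q ^ 6 * r ^ 18) * (C * (C * C)) := by gcongr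
      _ = (9 * C * (q ^ 2 * r ^ 6)) ^ 3 := by ring
  have a2 : √(l3 * 1 / (l0 * T)) ≤ C * (e ^ 6 / r) := by
    refine Real.sqrt_le_iff.2 ⟨by positivity, ?_⟩
    rw [div_le_iff₀ (by positivity)]
    have b1 : r ^ 2 * r ^ 2 ≤ (l0 * e ^ 3) * (C * T) := mul_le_mul lo Tlo (by positivity) (by positivity)
    have b2 : r ^ 2 * (r ^ 2) ≤ C * e ^ 3 * (l0 * T) := by linarith
    calc l3 * 1 ≤ C * (r ^ 2 * e ^ 9) := by rw [mul_one]; exact lu3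
      _ = C * (e ^ 9 / r ^ 2) * (r ^ 2 * r ^ 2) := by field_simp
      _ ≤ C * (e ^ 9 / r ^ 2) * (C * e ^ 3 * (l0 * T)) := by gcongr
      _ = (C * (e ^ 6 / r)) ^ 2 * (l0 * T) := by field_simp
  have a3 : (L ^ 2 / T ^ 3) ^ (1 / 3 : ℝ) * l3 ^ (1 / 3 : ℝ) ≤ C ^ 2 * (r ^ 4 * e ^ 3) := by
    rw [← Real.mul_rpow (by positivity) h3.le]
    have b1 : L ^ 2 / T ^ 3 * l3 ≤ (C ^ 2 * (r ^ 4 * e ^ 3)) ^ 3 := by
      rw [div_mul_eq_mul_div, div_le_iff₀ (by positivity)]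
      have b2 : (r ^ 2) ^ 3 ≤ (C * T) ^ 3 := by gcongr
      calc L ^ 2 * l3 ≤ (C * r ^ 8) ^ 2 * (C * (r ^ 2 * e ^ 9)) := by gcongr
        _ = C ^ 3 * r ^ 12 * e ^ 9 * (r ^ 2) ^ 3 := by ring
        _ ≤ C ^ 3 * r ^ 12 * e ^ 9 * (C * T) ^ 3 := by gcongr
        _ = (C ^ 2 * (r ^ 4 * e ^ 3)) ^ 3 * T ^ 3 := by ring
    calc (L ^ 2 / T ^ 3 * l3) ^ (1 / 3 : ℝ) ≤ ((C ^ 2 * (r ^ 4 * e ^ 3)) ^ 3) ^ (1 / 3 : ℝ) :=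
          Real.rpow_le_rpow (by positivity) b1 (by norm_num)
      _ = C ^ 2 * (r ^ 4 * e ^ 3) := by
          rw [← Real.rpow_natCast, ← Real.rpow_mul (by positivity)]
          norm_num
  have a4 : (1 * D) ^ (1 / 4 : ℝ) ≤ 3 * C ^ 3 * r ^ 2 := by
    rw [one_mul]
    have b1 : D ≤ (3 * C ^ 3 * r ^ 2) ^ 4 := by
      calc D ≤ 24 * C ^ 10 * r ^ 8 := Dup
        _ = 24 * (C ^ 10 * 1) * r ^ 8 := by ring
        _ ≤ 81 * (C ^ 10 * C ^ 2) * r ^ 8 := by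
            have b2 : (1 : ℝ) ≤ C ^ 2 := one_le_pow₀ hC
            gcongr
            norm_num
        _ = (3 * C ^ 3 * r ^ 2) ^ 4 := by ring
    calc D ^ (1 / 4 : ℝ) ≤ ((3 * C ^ 3 * r ^ 2) ^ 4) ^ (1 / 4 : ℝ) :=
          Real.rpow_le_rpow hD b1 (by norm_num)
      _ = 3 * C ^ 3 * r ^ 2 := by
          rw [← Real.rpow_natCast, ← Real.rpow_mul (by positivity)]
          norm_num
  have c1 : C ^ 2 * (q ^ 3 / r) * (u ^ 3 * L * √(1 : ℝ)) ≤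
      27 * C ^ 7 * (e ^ 24 * (q ^ 6 * r ^ 4)) := by
    rw [Real.sqrt_one, u3]
    have b1 : (1 : ℝ) ≤ e ^ 24 := one_le_pow₀ he
    calc C ^ 2 * (q ^ 3 / r) * (27 * (q ^ 3 * r ^ 5) * 1) = 27 * C ^ 2 * (1 * (q ^ 6 * r ^ 4)) := by
          field_simp
      _ ≤ 27 * C ^ 7 * (e ^ 24 * (q ^ 6 * r ^ 4)) := by
          have b2 : C ^ 2 ≤ C ^ 7 := pow_le_pow_right₀ hC (by norm_num)
          gcongr
  have c2 : C ^ 2 * (q ^ 3 / r) * (u ^ 2 * L * √(l3 * 1 / (l0 * T))) ≤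
      9 * C ^ 7 * (e ^ 24 * (q ^ 5 * r ^ 4)) := by
    calc C ^ 2 * (q ^ 3 / r) * (u ^ 2 * L * √(l3 * 1 / (l0 * T)))
        ≤ C ^ 2 * (q ^ 3 / r) * ((9 * C * (q ^ 2 * r ^ 6)) * (C * (e ^ 6 / r))) := by gcongr
      _ = 9 * C ^ 4 * (e ^ 6 * (q ^ 5 * r ^ 4)) := by field_simp
      _ ≤ 9 * C ^ 7 * (e ^ 24 * (q ^ 5 * r ^ 4)) := by
          have b2 : C ^ 4 ≤ C ^ 7 := pow_le_pow_right₀ hC (by norm_num)
          have b3 : e ^ 6 ≤ e ^ 24 := pow_le_pow_right₀ he (by norm_num)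
          gcongr
  have c3 : C ^ 2 * (q ^ 3 / r) * ((L ^ 2 / T ^ 3) ^ (1 / 3 : ℝ) * l3 ^ (1 / 3 : ℝ)) ≤
      1 * C ^ 7 * (e ^ 24 * (q ^ 4 * r ^ 4)) := by
    calc C ^ 2 * (q ^ 3 / r) * ((L ^ 2 / T ^ 3) ^ (1 / 3 : ℝ) * l3 ^ (1 / 3 : ℝ))
        ≤ C ^ 2 * (q ^ 3 / r) * (C ^ 2 * (r ^ 4 * e ^ 3)) := by gcongr
      _ = C ^ 4 * (e ^ 3 * (q ^ 3 * r ^ 3 * 1)) := by field_simp
      _ ≤ C ^ 7 * (e ^ 24 * (q ^ 3 * r ^ 3 * (q * r))) := by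
          have b2 : C ^ 4 ≤ C ^ 7 := pow_le_pow_right₀ hC (by norm_num)
          have b3 : e ^ 3 ≤ e ^ 24 := pow_le_pow_right₀ he (by norm_num)
          gcongr
      _ = 1 * C ^ 7 * (e ^ 24 * (q ^ 4 * r ^ 4)) := by ring
  have c4 : C ^ 2 * (q ^ 3 / r) * (u * l2 * l3 * (1 * D) ^ (1 / 4 : ℝ)) ≤
      9 * C ^ 7 * (e ^ 24 * (q ^ 4 * r ^ 4)) := by
    have b1 : u ≤ 3 * (q * e ^ 4) / r := by rwa [le_div_iff₀ hr]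
    calc C ^ 2 * (q ^ 3 / r) * (u * l2 * l3 * (1 * D) ^ (1 / 4 : ℝ))
        ≤ C ^ 2 * (q ^ 3 / r) * ((3 * (q * e ^ 4) / r) * (C * (r ^ 2 * e ^ 9)) *
            (C * (r ^ 2 * e ^ 9)) * (3 * C ^ 3 * r ^ 2)) := by gcongr
      _ = 9 * C ^ 7 * (e ^ 22 * (q ^ 4 * r ^ 4)) := by
          field_simp
          ring
      _ ≤ 9 * C ^ 7 * (e ^ 24 * (q ^ 4 * r ^ 4)) := by
          have b3 : e ^ 22 ≤ e ^ 24 := pow_le_pow_right₀ he (by norm_num)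
          gcongr
  have d1 : q ^ 5 ≤ q ^ 4 * (1 + q ^ 2) := by
    have : q ≤ 1 + q ^ 2 := by linarith [sq_nonneg (q - 1), sq_nonneg q]
    calc q ^ 5 = q ^ 4 * q := by ring
      _ ≤ q ^ 4 * (1 + q ^ 2) := by gcongr
  have d2 : q ^ 6 ≤ q ^ 4 * (1 + q ^ 2) := by linarith [pow_pos hq 4]
  have d3 : q ^ 4 ≤ q ^ 4 * (1 + q ^ 2) := by linarith [pow_pos hq 6]
  have hK : 0 < C ^ 7 * (e ^ 24 * r ^ 4) := by positivity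
  have e1 := mul_le_mul_of_nonneg_left d1 hK.le
  have e2 := mul_le_mul_of_nonneg_left d2 hK.le
  have e3 := mul_le_mul_of_nonneg_left d3 hK.le
  calc C ^ 2 * (q ^ 3 / r) * (u ^ 3 * L * √(1 : ℝ) + u ^ 2 * L * √(l3 * 1 / (l0 * T)) +
      (L ^ 2 / T ^ 3) ^ (1 / 3 : ℝ) * l3 ^ (1 / 3 : ℝ) + u * l2 * l3 * (1 * D) ^ (1 / 4 : ℝ))
      = C ^ 2 * (q ^ 3 / r) * (u ^ 3 * L * √(1 : ℝ)) +
        C ^ 2 * (q ^ 3 / r) * (u ^ 2 * L * √(l3 * 1 / (l0 * T))) +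
        C ^ 2 * (q ^ 3 / r) * ((L ^ 2 / T ^ 3) ^ (1 / 3 : ℝ) * l3 ^ (1 / 3 : ℝ)) +
        C ^ 2 * (q ^ 3 / r) * (u * l2 * l3 * (1 * D) ^ (1 / 4 : ℝ)) := by ring
    _ ≤ 27 * C ^ 7 * (e ^ 24 * (q ^ 6 * r ^ 4)) + 9 * C ^ 7 * (e ^ 24 * (q ^ 5 * r ^ 4)) +
        1 * C ^ 7 * (e ^ 24 * (q ^ 4 * r ^ 4)) + 9 * C ^ 7 * (e ^ 24 * (q ^ 4 * r ^ 4)) := by
        linarith
    _ ≤ 46 * C ^ 7 * (e ^ 24 * (q ^ 4 * (1 + q ^ 2) * r ^ 4)) := by linarith [e1, e2, e3]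

private theorem Bx_poly {C0 R δ t u l0 l2 l3 T L D : ℝ} (hC0 : 1 ≤ C0) (hR : 1 ≤ R) (hδ : 0 ≤ δ)
    (ht : 0 < t) (hqr : 1 ≤ t ^ (1 / 3 : ℝ) * R ^ (1 / 2 : ℝ)) (hu : 0 < u) (h0 : 0 < l0)
    (h2 : 0 < l2) (h3 : 0 < l3) (hT : 0 < T) (hL : 0 < L) (hD : 0 ≤ D)
    (u3 : u ^ 3 * L = 27 * (t * R ^ (5 / 2 : ℝ)))
    (uup : u ≤ 3 * (t ^ (1 / 3 : ℝ) * R ^ (-(1 / 2) + 4 / 3 * δ))) (Lup : L ≤ C0 * R ^ 4)
    (lo : R ^ (1 - δ) ≤ l0) (lu2 : l2 ≤ C0 * R ^ (1 + 3 * δ)) (lu3 : l3 ≤ C0 * R ^ (1 + 3 * δ))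
    (Tlo : R ≤ C0 * T) (Dup : D ≤ 24 * C0 ^ 10 * R ^ 4) :
    C0 ^ 2 * (t * R ^ (-(1 / 2) : ℝ)) * (u ^ 3 * L * √(1 : ℝ) + u ^ 2 * L * √(l3 * 1 / (l0 * T)) +
      (L ^ 2 / T ^ 3) ^ (1 / 3 : ℝ) * l3 ^ (1 / 3 : ℝ) + u * l2 * l3 * (1 * D) ^ (1 / 4 : ℝ)) ≤
      46 * C0 ^ 7 * (R ^ (8 * δ) * (t ^ (4 / 3 : ℝ) * (1 + t ^ (2 / 3 : ℝ)) * R ^ 2)) := by
  have hR0 : 0 < R := by linarith
  obtain ⟨q, hq⟩ : ∃ q, q = t ^ (1 / 3 : ℝ) := ⟨_, rfl⟩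
  obtain ⟨r, hr⟩ : ∃ r, r = R ^ (1 / 2 : ℝ) := ⟨_, rfl⟩
  obtain ⟨e, he⟩ : ∃ e, e = R ^ (δ / 3) := ⟨_, rfl⟩
  have hq0 : 0 < q := by rw [hq]; positivity
  have hr0 : 0 < r := by rw [hr]; positivity
  have he1 : 1 ≤ e := by rw [he]; exact Real.one_le_rpow hR (by linarith)
  have he0 : 0 < e := by linarith
  have tq : ∀ n : ℕ, q ^ n = t ^ ((n : ℝ) / 3) := by
    intro n
    rw [hq, ← Real.rpow_natCast, ← Real.rpow_mul ht.le]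
    congr 1
    ring
  have Rr : ∀ n : ℕ, r ^ n = R ^ ((n : ℝ) / 2) := by
    intro n
    rw [hr, ← Real.rpow_natCast, ← Real.rpow_mul hR0.le]
    congr 1
    ring
  have Re : ∀ n : ℕ, e ^ n = R ^ ((n : ℝ) * δ / 3) := by
    intro n
    rw [he, ← Real.rpow_natCast, ← Real.rpow_mul hR0.le]
    congr 1
    ring
  have Rn : ∀ n : ℕ, R ^ n = R ^ (n : ℝ) := fun n => (Real.rpow_natCast R n).symm
  have t1 : t = q ^ 3 := by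
    rw [tq]
    norm_num
  have t2 : t ^ (4 / 3 : ℝ) = q ^ 4 := by
    rw [tq]
    norm_num
  have t3 : t ^ (2 / 3 : ℝ) = q ^ 2 := by
    rw [tq]
    norm_num
  have r1 : R ^ (5 / 2 : ℝ) = r ^ 5 := by
    rw [Rr]
    norm_num
  have r2 : R ^ 4 = r ^ 8 := by
    rw [Rr, Rn]
    norm_num
  have r3 : R ^ 2 = r ^ 4 := by
    rw [Rr, Rn]
    norm_num
  have r4 : R = r ^ 2 := by
    rw [Rr]
    norm_num
  have r5 : R ^ (-(1 / 2) : ℝ) = 1 / r := by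
    rw [hr, Real.rpow_neg hR0.le]
    norm_num
  have r6 : R ^ (1 - δ) = r ^ 2 / e ^ 3 := by
    rw [Rr, Re, Real.rpow_sub hR0]
    norm_num
  have r7 : R ^ (1 + 3 * δ) = r ^ 2 * e ^ 9 := by
    rw [Rr, Re, ← Real.rpow_add hR0]
    congr 1
    push_cast
    ring
  have r8 : R ^ (-(1 / 2) + 4 / 3 * δ) = e ^ 4 / r := by
    rw [Real.rpow_add hR0, r5, Re]
    have : ((4 : ℕ) : ℝ) * δ / 3 = 4 / 3 * δ := by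
      push_cast
      ring
    rw [this]
    ring
  have r9 : R ^ (8 * δ) = e ^ 24 := by
    rw [Re]
    congr 1
    push_cast
    ring
  rw [r1, t1] at u3
  rw [← hq, r8] at uup
  rw [r2] at Lup Dup
  rw [r6, div_le_iff₀ (by positivity)] at lo
  rw [r7] at lu2 lu3
  rw [r4] at Tlo
  rw [← hq, ← hr] at hqr
  have uup' : u * r ≤ 3 * (q * e ^ 4) := by
    calc u * r ≤ 3 * (q * (e ^ 4 / r)) * r := by gcongr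
      _ = 3 * (q * e ^ 4) := by field_simp
  have key := Bx_alg hC0 hq0 hr0 he1 hqr hu h0 h2 h3 hT hL hD u3 uup' Lup lo lu2 lu3 Tlo Dup
  rw [r5, r9, t2, t3, r3]
  have e0 : t * (1 / r) = q ^ 3 / r := by
    rw [t1]
    ring
  rw [e0]
  exact key

theorem bxn (c : ℝ) (hc : 0 < c) (C0 : ℝ) (hC0 : 1 ≤ C0) : ∃ C : ℝ, 1 ≤ C ∧
    ∀ (R δ t T : ℝ) (x : Fin 10 → ℤ) (G : Matrix (Fin 4) (Fin 4) ℤ) (l : Fin 4 → ℝ),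
    1 ≤ R → 0 ≤ δ → δ ≤ 1 / 100 → 0 < t → t ≤ R → C0 ≤ t ^ (4 / 3 : ℝ) * R ^ 2 →
    ZD C0 R δ T x G l → ∃ Bd : ℝ, 0 ≤ Bd ∧
      (∀ (s : ℕ) (u' : ℝ) (X : Finset (Fin 4 → ℤ)), X.Nonempty → 0 < s → 0 < u' →
        u' ≤ 2 * uu R t l → (∀ m ∈ X, Pr4 m ∧ D2 G m ≠ 0 ∧ sl G m = s ∧ nw l m ≤ u') →
        (s : ℝ) * X.card / u' ≤ Bd) ∧
      t * R ^ (5 / 2 : ℝ) / (T * √|(G.det : ℝ)|) * Bd ≤
        C * R ^ (4 * c + 8 * δ) * (t ^ (4 / 3 : ℝ) * (1 + t ^ (2 / 3 : ℝ)) * R ^ 2) := by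
  obtain ⟨C1, hC1, H⟩ := PP5Q.nxb c hc C0 hC0
  have hC : 0 < C0 := by linarith
  have h3C : 1 ≤ (3 * C0) ^ c := Real.one_le_rpow (by linarith) hc.le
  refine ⟨C1 * (3 * C0) ^ c * (46 * C0 ^ 7), ?_, ?_⟩
  · have h1 : 1 ≤ C0 ^ 7 := one_le_pow₀ hC0
    have h2 : 1 ≤ C1 * (3 * C0) ^ c := one_le_mul_of_one_le_of_one_le hC1 h3C
    exact one_le_mul_of_one_le_of_one_le h2 (by linarith)
  intro R δ t T x G l hR hδ hδ1 ht htR ht2 h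
  have hR0 : 0 < R := by linarith
  have hra := ra hC0 hR hδ (by linarith) h
  have hrb := rb hC0 hR hδ (by linarith) ht h
  have hqr := Bx_qr hC0 hR ht ht2
  have hu := hrb.u0
  have hl : ∀ i, 0 < l i := h.gh.lp
  have hT0 : 0 < T := h.gh.T0
  have hY : 1 ≤ 3 * C0 * R ^ 4 := by
    have h1 : 1 ≤ R ^ 4 := one_le_pow₀ hR
    exact one_le_mul_of_one_le_of_one_le (by linarith) h1
  have hΛ : 0 < ∏ i, l i := hra.Lp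
  have hm2 : (PP5N.mi2 G : ℝ) = 1 := by
    rw [hra.m2]
    norm_num
  refine ⟨C1 * (3 * C0 * R ^ 4) ^ c *
      ((uu R t l) ^ 3 * (∏ i, l i) * √(PP5N.mi2 G : ℝ) +
        (uu R t l) ^ 2 * (∏ i, l i) * √(l 3 * PP5N.mi2 G / (l 0 * T)) +
        ((∏ i, l i) ^ 2 / T ^ 3) ^ (1 / 3 : ℝ) * l 3 ^ (1 / 3 : ℝ) +
        uu R t l * l 2 * l 3 * ((PP5N.mi2 G : ℝ) * |(G.det : ℝ)|) ^ (1 / 4 : ℝ)), ?_, ?_, ?_⟩
  · have h1 := hl 2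
    have h2 := hl 3
    positivity
  · intro s u' X hX hs hu' huu hXm
    refine H G l T (3 * C0 * R ^ 4) (uu R t l) h.gh hY ?_ ?_ hu s u' hs hu' huu X hX hXm
    · intro i
      have h1 := hra.lup i
      have h2 : R ^ (1 + 3 * δ) ≤ R ^ (4 : ℝ) :=
        Real.rpow_le_rpow_of_exponent_le hR (by linarith)
      have h3 : R ^ (4 : ℝ) = R ^ 4 := by
        rw [← Real.rpow_natCast R 4]
        norm_num
      rw [h3] at h2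
      have h4 : C0 * R ^ (1 + 3 * δ) ≤ C0 * R ^ 4 := mul_le_mul_of_nonneg_left h2 hC.le
      have h5 : 0 < C0 * R ^ 4 := by positivity
      linarith
    · rw [div_le_iff₀ (by linarith)]
      have h1 := h.Tlo
      have h2 : 1 ≤ R ^ 4 := one_le_pow₀ hR
      have h3 : 1 ≤ C0 * T := by linarith
      calc (1 : ℝ) ≤ (C0 * T) * R ^ 4 := one_le_mul_of_one_le_of_one_le h3 h2
        _ ≤ T * (3 * C0 * R ^ 4) := by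
            have h4 : 0 ≤ C0 * T * R ^ 4 := by positivity
            linarith
  · rw [hm2]
    have hmain := Bx_poly hC0 hR hδ ht hqr hu (hl 0) (hl 2) (hl 3) hT0 hΛ (abs_nonneg (G.det : ℝ))
      hrb.u3 hrb.uup hra.Lup (hra.lo 0) (hra.lup 2) (hra.lup 3) h.Tlo hra.Dup
    have hY2 : (3 * C0 * R ^ 4) ^ c = (3 * C0) ^ c * R ^ (4 * c) := by
      rw [Real.mul_rpow (by positivity) (by positivity), ← Real.rpow_natCast R 4,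
        ← Real.rpow_mul hR0.le]
      norm_num
    have hHT := hrb.HT
    set S : ℝ := (uu R t l) ^ 3 * (∏ i, l i) * √(1 : ℝ) +
        (uu R t l) ^ 2 * (∏ i, l i) * √(l 3 * 1 / (l 0 * T)) +
        ((∏ i, l i) ^ 2 / T ^ 3) ^ (1 / 3 : ℝ) * l 3 ^ (1 / 3 : ℝ) +
        uu R t l * l 2 * l 3 * ((1 : ℝ) * |(G.det : ℝ)|) ^ (1 / 4 : ℝ) with hS
    have hS0 : 0 ≤ S := by
      have h1 := hl 2
      have h2 := hl 3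
      rw [hS]
      positivity
    calc t * R ^ (5 / 2 : ℝ) / (T * √|(G.det : ℝ)|) * (C1 * (3 * C0 * R ^ 4) ^ c * S)
        ≤ (C0 ^ 2 * (t * R ^ (-(1 / 2) : ℝ))) * (C1 * (3 * C0 * R ^ 4) ^ c * S) :=
          mul_le_mul_of_nonneg_right hHT (by positivity)
      _ = C1 * (3 * C0 * R ^ 4) ^ c * ((C0 ^ 2 * (t * R ^ (-(1 / 2) : ℝ))) * S) := by ring
      _ ≤ C1 * (3 * C0 * R ^ 4) ^ c * (46 * C0 ^ 7 * (R ^ (8 * δ) *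
            (t ^ (4 / 3 : ℝ) * (1 + t ^ (2 / 3 : ℝ)) * R ^ 2))) :=
          mul_le_mul_of_nonneg_left hmain (by positivity)
      _ = C1 * (3 * C0) ^ c * (46 * C0 ^ 7) * R ^ (4 * c + 8 * δ) *
            (t ^ (4 / 3 : ℝ) * (1 + t ^ (2 / 3 : ℝ)) * R ^ 2) := by
          rw [hY2, Real.rpow_add hR0]
          ring

end Pool.Agent.PP5LZ
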