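import Pool.Agent.PP5Q.He
import Pool.Agent.PP5Q.Nb
import Pool.Agent.PP5Q.Ms
import Pool.Agent.PP5S.Sh2
import Pool.Agent.PP5S.Pig

/-!
# LB5, section Z: the count of the zeros of one quaternary form.  Definitions

`N_x(t)`: zeros `v` with `|v i| l i ≤ H = t R ^ (5/2)`.  `ZD` = the structure `GZ` of Pool/Agent/LB/Defs.lean.
-/

set_option autoImplicit false

namespace Pool.Agent.PP5LZ

open Matrix Finset Pool.Agent.PP5B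

/-- data for the zero count (`L_x` or one of its neighbours) -/
structure ZD (C0 R δ T : ℝ) (x : Fin 10 → ℤ) (G : Matrix (Fin 4) (Fin 4) ℤ) (l : Fin 4 → ℝ) :
    Prop where
  xg : PP5S.XG x G
  gh : PP5Q.GH C0 T G l
  Tlo : R ≤ C0 * T
  Tup : T ≤ C0 * R
  neg : (PP5L.SS x).det < 0
  Dlo : R ^ 4 ≤ C0 * |(((PP5L.SS x).det : ℤ) : ℝ)|
  det : G.det = (PP5L.SS x).det
  prod : ∏ i, l i ≤ C0 * R ^ 4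
  l0 : R ^ (1 - δ) ≤ l 0
  adj : ∀ p : ℕ, p.Prime → ∃ i j, ¬ (p : ℤ) ∣ G.adjugate i j

/-- `v` is a zero of `G` with `|v i| l i ≤ H` -/
def Ze (G : Matrix (Fin 4) (Fin 4) ℤ) (l : Fin 4 → ℝ) (H : ℝ) (v : Fin 4 → ℤ) : Prop :=
  Pr4 v ∧ v ⬝ᵥ (G *ᵥ v) = 0 ∧ ∀ i, |(v i : ℝ)| * l i ≤ H

/-- the size of the dual vectors `m` -/
noncomputable def uu (R t : ℝ) (l : Fin 4 → ℝ) : ℝ :=
  3 * (t * R ^ (5 / 2 : ℝ) / ∏ i, l i) ^ (1 / 3 : ℝ)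

/-- condition (c1) of `PP5S.CC` for one `x`, at the parameter `y` -/
def C1x (y δ A c3 θ : ℝ) (x : Fin 10 → ℤ) : Prop :=
  ∀ c : Matrix (Fin 4) (Fin 4) ℤ,
      (∀ l : ℕ, l.Prime → ¬ l ∣ PP5C.D2 x → ¬ (l : ℤ) ∣ (c + c.transpose).det) →
      (∀ n : ℕ, PP5C.Cn n c → PP5C.An n x) →
      ∀ (A0 : Fin 4 → ℤ) (H : ℕ), y ^ δ ≤ (H : ℝ) →
      ∀ (om : (Fin 4 → ℤ) → ℕ → ℝ) (ix : (Fin 4 → ℤ) → ℕ → ℕ) (S : Finset (Fin 4 → ℤ)),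
      (∀ m ∈ S, m ∈ PP5C.bx A0 (fun _ => H) ∧ PP5C.Pm m ∧ PP5C.qf c m ≠ 0 ∧
        ((PP5C.qf c m).natAbs : ℝ) ≤ y ^ A ∧
        PP5C.Wgt (PP5C.D2 x) (PP5C.qf c m).natAbs (PP5C.psx x) (om m) (ix m) ∧
        (PP5C.sx (PP5C.D2 x) (PP5C.qf c m).natAbs (ix m) : ℝ) ≤ y ^ c3) →
      ∑ m ∈ S, ∏ l ∈ (PP5C.qf c m).natAbs.primeFactors, om m l ≤ (H : ℝ) ^ 4 * θ

end Pool.Agent.PP5LZ
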