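import Pool.Agent.PP5LZ.Rb

/-!
# LB5, section Z, module Pg (size 2): the dual vector of a zero

PROOF.  `PP5S.pig` with `N = H = t R^(5/2)`, `S = u = uu R t l`: one needs `8 u H + 1 < u^4 Λ = 27 u H` (`RB.u3`), i.e. `1 < 19 u H`.
`u H ≥ (3 / C0) t^(1/3) R^(-1/2) · t R^(5/2) = (3 / C0) t^(4/3) R² ≥ 3` by `ht2`.
(`Prm m` gives `Pr4 m`: `PP5S.pr4_of_prm`; `∑ i, m i * v i = m ⬝ᵥ v` is `rfl`.)
-/

set_option autoImplicit false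

namespace Pool.Agent.PP5LZ

open Matrix Finset Pool.Agent.PP5B

private theorem Pg_pr4 {m : Fin 4 → ℤ} (h : PP5S.Prm m) : Pr4 m := by
  intro p hp hd
  have h1 := h p (fun i => hd i)
  rw [Int.isUnit_iff] at h1
  have := hp.two_le
  omega

theorem pg {C0 R δ t T : ℝ} {x : Fin 10 → ℤ} {G : Matrix (Fin 4) (Fin 4) ℤ} {l : Fin 4 → ℝ}
    (hC0 : 1 ≤ C0) (hR : 1 ≤ R) (hδ : 0 ≤ δ) (hδ1 : δ ≤ 1) (ht : 0 < t)
    (ht2 : C0 ≤ t ^ (4 / 3 : ℝ) * R ^ 2) (h : ZD C0 R δ T x G l) {v : Fin 4 → ℤ}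
    (hv : Ze G l (t * R ^ (5 / 2 : ℝ)) v) :
    ∃ m : Fin 4 → ℤ, Pr4 m ∧ m ⬝ᵥ v = 0 ∧ ∀ i, |(m i : ℝ)| ≤ uu R t l * l i := by
  have hR0 : 0 < R := lt_of_lt_of_le one_pos hR
  have hA := ra hC0 hR hδ hδ1 h
  have hB := rb hC0 hR hδ hδ1 ht h
  have hl : ∀ i, 0 < l i := fun i => lt_of_lt_of_le (Real.rpow_pos_of_pos hR0 _) (hA.lo i)
  have hH : 0 < t * R ^ (5 / 2 : ℝ) := mul_pos ht (Real.rpow_pos_of_pos hR0 _)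
  have e1 : (t ^ (1 / 3 : ℝ) * R ^ (-(1 / 2) : ℝ)) * (t * R ^ (5 / 2 : ℝ))
      = t ^ (4 / 3 : ℝ) * R ^ 2 := by
    have a1 : t ^ (1 / 3 : ℝ) * t = t ^ (4 / 3 : ℝ) := by
      rw [← Real.rpow_add_one ht.ne']
      norm_num
    have a2 : R ^ (-(1 / 2) : ℝ) * R ^ (5 / 2 : ℝ) = R ^ 2 := by
      rw [← Real.rpow_add hR0, ← Real.rpow_natCast]
      norm_num
    rw [← a1, ← a2]
    ring
  have e2 : 3 ≤ uu R t l * (t * R ^ (5 / 2 : ℝ)) := by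
    have h1 := mul_le_mul_of_nonneg_right hB.ulo hH.le
    have h2 : 3 * (t ^ (1 / 3 : ℝ) * R ^ (-(1 / 2) : ℝ)) * (t * R ^ (5 / 2 : ℝ))
        = 3 * (t ^ (4 / 3 : ℝ) * R ^ 2) := by
      rw [← e1]
      ring
    rw [h2] at h1
    have h3 : C0 * 3 ≤ C0 * (uu R t l * (t * R ^ (5 / 2 : ℝ))) := by
      calc C0 * 3 ≤ 3 * (t ^ (4 / 3 : ℝ) * R ^ 2) := by linarith
        _ ≤ C0 * uu R t l * (t * R ^ (5 / 2 : ℝ)) := h1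
        _ = _ := by ring
    exact le_of_mul_le_mul_left h3 (lt_of_lt_of_le one_pos hC0)
  have e3 : (uu R t l) ^ 4 * ∏ i, l i = uu R t l * (27 * (t * R ^ (5 / 2 : ℝ))) := by
    rw [← hB.u3]
    ring
  have e4 : 8 * uu R t l * (t * R ^ (5 / 2 : ℝ)) + 1 < (uu R t l) ^ 4 * ∏ i, l i := by
    rw [e3]
    nlinarith
  obtain ⟨m, hm1, hm2, hm3⟩ := PP5S.pig l v hl hv.2.2 hB.u0 e4
  exact ⟨m, Pg_pr4 hm1, hm3, hm2⟩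

end Pool.Agent.PP5LZ
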