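import Pool.Agent.PP5LZ.Defs

/-!
# LB5, section Z, module Ra (size 4): real facts about the data

Notation `Λ = ∏ i, l i`, `D = |det|`.  All from the fields of `ZD` and `GH` (`h.gh`); `1 ≤ C0`, `1 ≤ R`, `0 ≤ δ`.
PROOF.  `lo`: `R^(1-δ) ≤ l 0 ≤ l i` (`GH.l0_le`).  `Llo`: `R^(4-4δ) = (R^(1-δ))^4 ≤ ∏ l i`.  `lup`: `l i ≤ l 3` (`GH.le_l3`) and `l 3 (R^(1-δ))^3 ≤ l 0 l 1 l 2 l 3 ≤ C0 R^4`, so
`l 3 ≤ C0 R^4 / R^(3-3δ) = C0 R^(1+3δ)`.  `Dup`: `PP5S.det_G_le` (`h.gh.T0`, `h.gh.gram`): `D ≤ 24 C0^4 Λ² / T^4`, `Λ ≤ C0 R^4`, `T ≥ R / C0` : `D ≤ 24 C0^4 · C0² R^8 · C0^4 / R^4 = 24 C0^10 R^4`.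
`LLlo`: `R^4 / C0 ≤ D ≤ 24 C0^4 Λ² / T^4 ≤ 24 C0^8 Λ² / R^4`, so `R^8 ≤ 24 C0^9 Λ² ≤ (5 C0^5 Λ)²` and take roots.
`sqD`: `√D ≥ √(R^4 / C0) ≥ R² / C0` (`C0 ≥ 1`).  `nsq`: a square is `≥ 0`, but `G.det = SS x .det < 0`.
`m3`: `PP5N.mi3 G = 1`: a prime `p ∣ mi3 G` divides all entries of the adjugate (`PP5N.mi3_dvd`), against `h.adj` (and `mi3 G ≠ 0`: else all entries are `0`, divisible by `2`;
`Nat.eq_one_of...`/`Nat.exists_prime_and_dvd`).  `m2`: `PP5N.mi2 G = 1`: a prime `p ∣ mi2 G` divides all `2 × 2` minors (`PP5N.mi2_dvd`), hence all `3 × 3` minors (expand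
along a row: `Matrix.adjugate_fin_succ_eq_det_submatrix`, `Matrix.det_fin_three`), i.e. all entries of the adjugate, against `h.adj`.
-/

set_option autoImplicit false

namespace Pool.Agent.PP5LZ

open Matrix Finset Pool.Agent.PP5B

/-- the real facts -/
structure RA (C0 R δ T : ℝ) (G : Matrix (Fin 4) (Fin 4) ℤ) (l : Fin 4 → ℝ) : Prop where
  lo : ∀ i, R ^ (1 - δ) ≤ l i
  lup : ∀ i, l i ≤ C0 * R ^ (1 + 3 * δ)
  Lp : 0 < ∏ i, l i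
  Llo : R ^ (4 - 4 * δ) ≤ ∏ i, l i
  LLlo : R ^ 4 ≤ 5 * C0 ^ 5 * ∏ i, l i
  Lup : ∏ i, l i ≤ C0 * R ^ 4
  Dlo : R ^ 4 ≤ C0 * |(G.det : ℝ)|
  Dup : |(G.det : ℝ)| ≤ 24 * C0 ^ 10 * R ^ 4
  sqD : R ^ 2 ≤ C0 * √|(G.det : ℝ)|
  nsq : ¬ IsSquare G.det
  m3 : PP5N.mi3 G = 1
  m2 : PP5N.mi2 G = 1

theorem ra {C0 R δ T : ℝ} {x : Fin 10 → ℤ} {G : Matrix (Fin 4) (Fin 4) ℤ} {l : Fin 4 → ℝ}
    (hC0 : 1 ≤ C0) (hR : 1 ≤ R) (hδ : 0 ≤ δ) (hδ1 : δ ≤ 1) (h : ZD C0 R δ T x G l) :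
    RA C0 R δ T G l := by
  have hC0' : 0 < C0 := by linarith
  have hR0 : 0 < R := by linarith
  have hT0 : 0 < T := h.gh.T0
  have hlo : ∀ i, R ^ (1 - δ) ≤ l i := fun i => h.l0.trans (h.gh.l0_le i)
  have hlp : ∀ i, 0 < l i := h.gh.lp
  have hLp : 0 < ∏ i, l i := Finset.prod_pos fun i _ => hlp i
  have hRp : 0 < R ^ (1 - δ) := Real.rpow_pos_of_pos hR0 _
  have hRT : R ^ 4 ≤ C0 ^ 4 * T ^ 4 := by
    have := pow_le_pow_left₀ hR0.le h.Tlo 4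
    rwa [mul_pow] at this
  have hD := PP5S.det_G_le hT0 h.gh.gram
  have hDR : |(G.det : ℝ)| * R ^ 4 ≤ 24 * C0 ^ 8 * (∏ i, l i) ^ 2 := by
    have hT4 : 0 < T ^ 4 := by positivity
    have h1 : |(G.det : ℝ)| * T ^ 4 ≤ 24 * C0 ^ 4 * (∏ i, l i) ^ 2 := by
      rwa [le_div_iff₀ hT4] at hD
    calc |(G.det : ℝ)| * R ^ 4 ≤ |(G.det : ℝ)| * (C0 ^ 4 * T ^ 4) :=
          mul_le_mul_of_nonneg_left hRT (abs_nonneg _)
      _ = C0 ^ 4 * (|(G.det : ℝ)| * T ^ 4) := by ring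
      _ ≤ C0 ^ 4 * (24 * C0 ^ 4 * (∏ i, l i) ^ 2) :=
          mul_le_mul_of_nonneg_left h1 (by positivity)
      _ = 24 * C0 ^ 8 * (∏ i, l i) ^ 2 := by ring
  have hDlo : R ^ 4 ≤ C0 * |(G.det : ℝ)| := by
    rw [h.det]; exact h.Dlo
  have hR4 : 0 < R ^ 4 := by positivity
  have hneg : G.det < 0 := by rw [h.det]; exact h.neg
  refine ⟨hlo, ?_, hLp, ?_, ?_, h.prod, hDlo, ?_, ?_, ?_, ?_, ?_⟩
  · intro i
    refine (h.gh.le_l3 i).trans ?_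
    have h1 : l 3 * (R ^ (1 - δ)) ^ 3 ≤ C0 * R ^ 4 := by
      refine le_trans ?_ h.prod
      rw [Fin.prod_univ_four]
      have e0 : (R ^ (1 - δ)) ^ 3 ≤ l 0 * l 1 * l 2 := by
        have e1 : R ^ (1 - δ) * R ^ (1 - δ) ≤ l 0 * l 1 :=
          mul_le_mul (hlo 0) (hlo 1) hRp.le (hlp 0).le
        have e2 : R ^ (1 - δ) * R ^ (1 - δ) * R ^ (1 - δ) ≤ l 0 * l 1 * l 2 :=
          mul_le_mul e1 (hlo 2) hRp.le (mul_pos (hlp 0) (hlp 1)).le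
        calc (R ^ (1 - δ)) ^ 3 = R ^ (1 - δ) * R ^ (1 - δ) * R ^ (1 - δ) := by ring
          _ ≤ _ := e2
      calc l 3 * (R ^ (1 - δ)) ^ 3 ≤ l 3 * (l 0 * l 1 * l 2) :=
            mul_le_mul_of_nonneg_left e0 (hlp 3).le
        _ = l 0 * l 1 * l 2 * l 3 := by ring
    have h2 : (R ^ (1 - δ)) ^ 3 * R ^ (1 + 3 * δ) = R ^ 4 := by
      rw [← Real.rpow_natCast, ← Real.rpow_mul hR0.le, ← Real.rpow_add hR0, ← Real.rpow_natCast]
      congr 1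
      push_cast
      ring
    have h3 : 0 < (R ^ (1 - δ)) ^ 3 := by positivity
    have h4 : l 3 * (R ^ (1 - δ)) ^ 3 ≤ (C0 * R ^ (1 + 3 * δ)) * (R ^ (1 - δ)) ^ 3 := by
      calc l 3 * (R ^ (1 - δ)) ^ 3 ≤ C0 * R ^ 4 := h1
        _ = (C0 * R ^ (1 + 3 * δ)) * (R ^ (1 - δ)) ^ 3 := by rw [← h2]; ring
    exact le_of_mul_le_mul_right h4 h3
  · have e1 : R ^ (4 - 4 * δ) = ∏ _i : Fin 4, R ^ (1 - δ) := by
      rw [Finset.prod_const, Finset.card_univ, Fintype.card_fin, ← Real.rpow_natCast,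
        ← Real.rpow_mul hR0.le]
      congr 1
      push_cast
      ring
    rw [e1]
    exact Finset.prod_le_prod (fun i _ => hRp.le) fun i _ => hlo i
  · have h1 : R ^ 4 * R ^ 4 ≤ 24 * C0 ^ 9 * (∏ i, l i) ^ 2 := by
      calc R ^ 4 * R ^ 4 ≤ C0 * |(G.det : ℝ)| * R ^ 4 :=
            mul_le_mul_of_nonneg_right hDlo hR4.le
        _ = C0 * (|(G.det : ℝ)| * R ^ 4) := by ring
        _ ≤ C0 * (24 * C0 ^ 8 * (∏ i, l i) ^ 2) := mul_le_mul_of_nonneg_left hDR hC0'.le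
        _ = 24 * C0 ^ 9 * (∏ i, l i) ^ 2 := by ring
    have h2 : 24 * C0 ^ 9 * (∏ i, l i) ^ 2 ≤ (5 * C0 ^ 5 * ∏ i, l i) ^ 2 := by
      have e : C0 ^ 9 ≤ C0 ^ 10 := pow_le_pow_right₀ hC0 (by norm_num)
      have e' : 0 ≤ (∏ i, l i) ^ 2 := sq_nonneg _
      calc 24 * C0 ^ 9 * (∏ i, l i) ^ 2 ≤ 25 * C0 ^ 10 * (∏ i, l i) ^ 2 := by
            apply mul_le_mul_of_nonneg_right _ e'
            have : 0 < C0 ^ 9 := by positivity
            linarith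
        _ = (5 * C0 ^ 5 * ∏ i, l i) ^ 2 := by ring
    have h3 : (R ^ 4) ^ 2 ≤ (5 * C0 ^ 5 * ∏ i, l i) ^ 2 := by
      calc (R ^ 4) ^ 2 = R ^ 4 * R ^ 4 := by ring
        _ ≤ _ := h1.trans h2
    exact le_of_sq_le_sq h3 (by positivity)
  · have h1 : (∏ i, l i) ^ 2 ≤ (C0 * R ^ 4) ^ 2 := pow_le_pow_left₀ hLp.le h.prod 2
    have h2 : |(G.det : ℝ)| * R ^ 4 ≤ (24 * C0 ^ 10 * R ^ 4) * R ^ 4 := by
      calc |(G.det : ℝ)| * R ^ 4 ≤ 24 * C0 ^ 8 * (∏ i, l i) ^ 2 := hDR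
        _ ≤ 24 * C0 ^ 8 * (C0 * R ^ 4) ^ 2 := mul_le_mul_of_nonneg_left h1 (by positivity)
        _ = (24 * C0 ^ 10 * R ^ 4) * R ^ 4 := by ring
    exact le_of_mul_le_mul_right h2 hR4
  · have h1 : (R ^ 2) ^ 2 ≤ (C0 * √|(G.det : ℝ)|) ^ 2 := by
      rw [mul_pow, Real.sq_sqrt (abs_nonneg _)]
      calc (R ^ 2) ^ 2 = R ^ 4 := by ring
        _ ≤ C0 * |(G.det : ℝ)| := hDlo
        _ ≤ C0 ^ 2 * |(G.det : ℝ)| := by
            apply mul_le_mul_of_nonneg_right _ (abs_nonneg _)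
            nlinarith
    exact le_of_sq_le_sq h1 (mul_nonneg hC0'.le (Real.sqrt_nonneg _))
  · rintro ⟨r, hr⟩
    rw [hr] at hneg
    exact absurd (mul_self_nonneg r) (not_le.2 hneg)
  · by_contra hne
    obtain ⟨p, hp, hpd⟩ := Nat.exists_prime_and_dvd hne
    obtain ⟨i, j, hij⟩ := h.adj p hp
    exact hij (dvd_trans (Int.natCast_dvd_natCast.2 hpd) (PP5N.mi3_dvd G i j))
  · by_contra hne
    obtain ⟨p, hp, hpd⟩ := Nat.exists_prime_and_dvd hne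
    obtain ⟨i, j, hij⟩ := h.adj p hp
    apply hij
    have m2 : ∀ i i' k k', (p : ℤ) ∣ G i k * G i' k' - G i k' * G i' k := fun i i' k k' =>
      dvd_trans (Int.natCast_dvd_natCast.2 hpd) (PP5N.mi2_dvd G i i' k k')
    rw [Matrix.adjugate_fin_succ_eq_det_submatrix]
    apply Dvd.dvd.mul_left
    rw [Matrix.det_fin_three]
    simp only [Matrix.submatrix_apply]
    have e : G (j.succAbove 0) (i.succAbove 0) * G (j.succAbove 1) (i.succAbove 1) * G (j.succAbove 2) (i.succAbove 2) -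
        G (j.succAbove 0) (i.succAbove 0) * G (j.succAbove 1) (i.succAbove 2) * G (j.succAbove 2) (i.succAbove 1) -
        G (j.succAbove 0) (i.succAbove 1) * G (j.succAbove 1) (i.succAbove 0) * G (j.succAbove 2) (i.succAbove 2) +
        G (j.succAbove 0) (i.succAbove 1) * G (j.succAbove 1) (i.succAbove 2) * G (j.succAbove 2) (i.succAbove 0) +
        G (j.succAbove 0) (i.succAbove 2) * G (j.succAbove 1) (i.succAbove 0) * G (j.succAbove 2) (i.succAbove 1) -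
        G (j.succAbove 0) (i.succAbove 2) * G (j.succAbove 1) (i.succAbove 1) * G (j.succAbove 2) (i.succAbove 0) =
        G (j.succAbove 0) (i.succAbove 0) * (G (j.succAbove 1) (i.succAbove 1) * G (j.succAbove 2) (i.succAbove 2) -
          G (j.succAbove 1) (i.succAbove 2) * G (j.succAbove 2) (i.succAbove 1)) -
        G (j.succAbove 0) (i.succAbove 1) * (G (j.succAbove 1) (i.succAbove 0) * G (j.succAbove 2) (i.succAbove 2) -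
          G (j.succAbove 1) (i.succAbove 2) * G (j.succAbove 2) (i.succAbove 0)) +
        G (j.succAbove 0) (i.succAbove 2) * (G (j.succAbove 1) (i.succAbove 0) * G (j.succAbove 2) (i.succAbove 1) -
          G (j.succAbove 1) (i.succAbove 1) * G (j.succAbove 2) (i.succAbove 0)) := by ring
    rw [e]
    exact dvd_add (dvd_sub (Dvd.dvd.mul_left (m2 _ _ _ _) _) (Dvd.dvd.mul_left (m2 _ _ _ _) _))
      (Dvd.dvd.mul_left (m2 _ _ _ _) _)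

end Pool.Agent.PP5LZ
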