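import Pool.Agent.PP5LZ.Ra

/-!
# LB5, section Z, module Rb (size 3): the dual size `u = uu R t l`

`H = t R^(5/2)`, `u = 3 (H / Λ)^(1/3)`, `Λ = ∏ l i`.
PROOF.  `u3`: `((H/Λ)^(1/3))^3 = H/Λ`.  `ulo`: `Λ ≤ C0 R^4`, so `(H / Λ)^(1/3) ≥ (t R^(-3/2) / C0)^(1/3) ≥ C0⁻¹ t^(1/3) R^(-1/2)` (`C0 ≥ 1`).
`uup`: `Λ ≥ R^(4-4δ)`: `(H/Λ)^(1/3) ≤ (t R^(-3/2+4δ))^(1/3) = t^(1/3) R^(-1/2+4δ/3)`.
`ueq`: `u^4 Λ = 81 (H/Λ)^(4/3) Λ = 81 H^(4/3) Λ^(-1/3)`: `u^4 Λ = u · 27 H`, and `u ≤ 3 (5 C0^5)^(1/3) t^(1/3) R^(-1/2) ≤ 15 C0^5 t^(1/3) R^(-1/2)` (from `R^4 ≤ 5 C0^5 Λ`), so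
`u^4 Λ ≤ 27 · 15 C0^5 t^(4/3) R²`.  `uss` is this sharper upper bound for `u`.
`HT`: `H / (T √D) ≤ t R^(5/2) · (C0 / R) · (C0 / R²) = C0² t R^(-1/2)`.
`HTS`: `H / (T u √D) = (H / (T √D)) / u ≤ C0² t R^(-1/2) · C0 / (3 t^(1/3) R^(-1/2)) ≤ C0³ t^(2/3)`.
-/

set_option autoImplicit false

namespace Pool.Agent.PP5LZ

open Matrix Finset Pool.Agent.PP5B

/-- the facts about `u` -/
structure RB (C0 R δ t T : ℝ) (G : Matrix (Fin 4) (Fin 4) ℤ) (l : Fin 4 → ℝ) : Prop where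
  u0 : 0 < uu R t l
  u3 : (uu R t l) ^ 3 * ∏ i, l i = 27 * (t * R ^ (5 / 2 : ℝ))
  ulo : 3 * (t ^ (1 / 3 : ℝ) * R ^ (-(1 / 2) : ℝ)) ≤ C0 * uu R t l
  uup : uu R t l ≤ 3 * (t ^ (1 / 3 : ℝ) * R ^ (-(1 / 2) + 4 / 3 * δ))
  uss : uu R t l ≤ 15 * C0 ^ 5 * (t ^ (1 / 3 : ℝ) * R ^ (-(1 / 2) : ℝ))
  ueq : (uu R t l) ^ 4 * ∏ i, l i ≤ 405 * C0 ^ 5 * (t ^ (4 / 3 : ℝ) * R ^ 2)
  HT : t * R ^ (5 / 2 : ℝ) / (T * √|(G.det : ℝ)|) ≤ C0 ^ 2 * (t * R ^ (-(1 / 2) : ℝ))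
  HTS : t * R ^ (5 / 2 : ℝ) / (T * uu R t l * √|(G.det : ℝ)|) ≤ C0 ^ 3 * t ^ (2 / 3 : ℝ)

theorem rb {C0 R δ t T : ℝ} {x : Fin 10 → ℤ} {G : Matrix (Fin 4) (Fin 4) ℤ} {l : Fin 4 → ℝ}
    (hC0 : 1 ≤ C0) (hR : 1 ≤ R) (hδ : 0 ≤ δ) (hδ1 : δ ≤ 1) (ht : 0 < t)
    (h : ZD C0 R δ T x G l) : RB C0 R δ t T G l := by
  have ha := ra hC0 hR hδ hδ1 h
  have hT0 : 0 < T := h.gh.T0
  have hTlo := h.Tlo
  obtain ⟨L, hL⟩ : ∃ L : ℝ, L = ∏ i, l i := ⟨_, rfl⟩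
  obtain ⟨q, hq⟩ : ∃ q : ℝ, q = √|(G.det : ℝ)| := ⟨_, rfl⟩
  have hLp : 0 < L := by rw [hL]; exact ha.Lp
  have hLlo : R ^ (4 - 4 * δ) ≤ L := by rw [hL]; exact ha.Llo
  have hLL : R ^ 4 ≤ 5 * C0 ^ 5 * L := by rw [hL]; exact ha.LLlo
  have hLup : L ≤ C0 * R ^ 4 := by rw [hL]; exact ha.Lup
  have hsq : R ^ 2 ≤ C0 * q := by rw [hq]; exact ha.sqD
  have hR0 : 0 < R := by linarith
  have hC00 : 0 < C0 := by linarith
  have hq0 : 0 < q := by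
    have h1 : 0 < C0 * q := lt_of_lt_of_le (by positivity) hsq
    exact (pos_iff_pos_of_mul_pos h1).1 hC00
  obtain ⟨a, haa⟩ : ∃ a : ℝ, a = t ^ (1 / 3 : ℝ) := ⟨_, rfl⟩
  obtain ⟨r, hr⟩ : ∃ r : ℝ, r = R ^ (1 / 2 : ℝ) := ⟨_, rfl⟩
  obtain ⟨e, he⟩ : ∃ e : ℝ, e = R ^ (4 / 3 * δ) := ⟨_, rfl⟩
  have ha0 : 0 < a := by rw [haa]; positivity
  have hr0 : 0 < r := by rw [hr]; positivity
  have he0 : 0 < e := by rw [he]; positivity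
  have hat : t = a ^ 3 := by
    rw [haa, ← Real.rpow_natCast, ← Real.rpow_mul ht.le]
    norm_num
  have ha2 : t ^ (2 / 3 : ℝ) = a ^ 2 := by
    rw [haa, ← Real.rpow_natCast, ← Real.rpow_mul ht.le]
    norm_num
  have ha4 : t ^ (4 / 3 : ℝ) = a ^ 4 := by
    rw [haa, ← Real.rpow_natCast, ← Real.rpow_mul ht.le]
    norm_num
  have hrR : R = r ^ 2 := by
    rw [hr, ← Real.rpow_natCast, ← Real.rpow_mul hR0.le]
    norm_num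
  have hr5 : R ^ (5 / 2 : ℝ) = r ^ 5 := by
    rw [hr, ← Real.rpow_natCast, ← Real.rpow_mul hR0.le]
    norm_num
  have hrm : R ^ (-(1 / 2) : ℝ) = r⁻¹ := by
    rw [hr, ← Real.rpow_neg hR0.le]
  have hre : R ^ (-(1 / 2) + 4 / 3 * δ) = r⁻¹ * e := by
    rw [Real.rpow_add hR0, hrm, he]
  have hR4 : R ^ 4 = r ^ 8 := by rw [hrR]; ring
  have hR2 : R ^ 2 = r ^ 4 := by rw [hrR]; ring
  have hLe : r ^ 8 ≤ L * e ^ 3 := by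
    have h1 : R ^ (4 - 4 * δ) * e ^ 3 = r ^ 8 := by
      rw [he, ← Real.rpow_natCast (R ^ (4 / 3 * δ)) 3, ← Real.rpow_mul hR0.le,
        ← Real.rpow_add hR0, ← hR4, ← Real.rpow_natCast R 4]
      congr 1
      push_cast
      ring
    rw [← h1]
    exact mul_le_mul_of_nonneg_right hLlo (by positivity)
  obtain ⟨w, hw⟩ : ∃ w : ℝ, w = (t * R ^ (5 / 2 : ℝ) / L) ^ (1 / 3 : ℝ) := ⟨_, rfl⟩
  have hw0 : 0 < w := by rw [hw]; positivity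
  have hw3 : w ^ 3 * L = a ^ 3 * r ^ 5 := by
    have h1 : w ^ 3 = t * R ^ (5 / 2 : ℝ) / L := by
      rw [hw, ← Real.rpow_natCast, ← Real.rpow_mul (by positivity)]
      norm_num
    rw [h1, div_mul_cancel₀ _ hLp.ne', hr5, hat]
  have huu : uu R t l = 3 * w := by rw [uu, ← hL, hw]
  have hC3 : C0 ≤ C0 ^ 3 := le_self_pow₀ hC0 (by norm_num)
  have hC5 : 1 ≤ C0 ^ 5 := one_le_pow₀ hC0
  -- w r L-bounds
  have b1 : a ≤ C0 * (w * r) := by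
    refine le_of_pow_le_pow_left₀ (n := 3) (by norm_num) (by positivity) ?_
    have h1 : L ≤ C0 ^ 3 * r ^ 8 := by
      rw [hR4] at hLup
      exact hLup.trans (mul_le_mul_of_nonneg_right hC3 (by positivity))
    have h2 : a ^ 3 * L ≤ (C0 * (w * r)) ^ 3 * L := by
      calc a ^ 3 * L ≤ a ^ 3 * (C0 ^ 3 * r ^ 8) := mul_le_mul_of_nonneg_left h1 (by positivity)
        _ = C0 ^ 3 * r ^ 3 * (a ^ 3 * r ^ 5) := by ring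
        _ = C0 ^ 3 * r ^ 3 * (w ^ 3 * L) := by rw [hw3]
        _ = (C0 * (w * r)) ^ 3 * L := by ring
    exact le_of_mul_le_mul_right h2 hLp
  have b2 : w * r ≤ a * e := by
    refine le_of_pow_le_pow_left₀ (n := 3) (by norm_num) (by positivity) ?_
    have h2 : (w * r) ^ 3 * L ≤ (a * e) ^ 3 * L := by
      calc (w * r) ^ 3 * L = r ^ 3 * (w ^ 3 * L) := by ring
        _ = a ^ 3 * r ^ 8 := by rw [hw3]; ring
        _ ≤ a ^ 3 * (L * e ^ 3) := mul_le_mul_of_nonneg_left hLe (by positivity)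
        _ = (a * e) ^ 3 * L := by ring
    exact le_of_mul_le_mul_right h2 hLp
  have b3 : w * r ≤ 5 * C0 ^ 5 * a := by
    refine le_of_pow_le_pow_left₀ (n := 3) (by norm_num) (by positivity) ?_
    have h1 : 5 * C0 ^ 5 ≤ (5 * C0 ^ 5) ^ 3 := le_self_pow₀ (by linarith) (by norm_num)
    have h2 : (w * r) ^ 3 * L ≤ (5 * C0 ^ 5 * a) ^ 3 * L := by
      calc (w * r) ^ 3 * L = r ^ 3 * (w ^ 3 * L) := by ring
        _ = a ^ 3 * r ^ 8 := by rw [hw3]; ring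
        _ ≤ a ^ 3 * (5 * C0 ^ 5 * L) := by
            rw [← hR4]; exact mul_le_mul_of_nonneg_left hLL (by positivity)
        _ = a ^ 3 * L * (5 * C0 ^ 5) := by ring
        _ ≤ a ^ 3 * L * (5 * C0 ^ 5) ^ 3 := mul_le_mul_of_nonneg_left h1 (by positivity)
        _ = (5 * C0 ^ 5 * a) ^ 3 * L := by ring
    exact le_of_mul_le_mul_right h2 hLp
  have b4 : r ^ 6 ≤ C0 ^ 2 * (T * q) := by
    have h1 : r ^ 2 ≤ C0 * T := by rw [← hrR]; exact hTlo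
    have h2 : r ^ 4 ≤ C0 * q := by rw [← hR2]; exact hsq
    calc r ^ 6 = r ^ 2 * r ^ 4 := by ring
      _ ≤ (C0 * T) * (C0 * q) := mul_le_mul h1 h2 (by positivity) (by positivity)
      _ = C0 ^ 2 * (T * q) := by ring
  have hu0 : 0 < uu R t l := by rw [huu]; positivity
  have huss : uu R t l ≤ 15 * C0 ^ 5 * (a * r⁻¹) := by
    rw [huu, ← div_eq_mul_inv, ← mul_div_assoc, le_div_iff₀ hr0]
    linarith
  have hu3 : (uu R t l) ^ 3 * L = 27 * (a ^ 3 * r ^ 5) := by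
    rw [huu, ← hw3]; ring
  have hHT : t * R ^ (5 / 2 : ℝ) / (T * q) ≤ C0 ^ 2 * (t * R ^ (-(1 / 2) : ℝ)) := by
    rw [hr5, hrm, hat, div_le_iff₀ (by positivity)]
    have h1 : a ^ 3 * r ^ 5 = a ^ 3 * r⁻¹ * r ^ 6 := by field_simp
    rw [h1]
    calc a ^ 3 * r⁻¹ * r ^ 6 ≤ a ^ 3 * r⁻¹ * (C0 ^ 2 * (T * q)) :=
          mul_le_mul_of_nonneg_left b4 (by positivity)
      _ = C0 ^ 2 * (a ^ 3 * r⁻¹) * (T * q) := by ring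
  refine ⟨hu0, ?_, ?_, ?_, ?_, ?_, ?_, ?_⟩
  · rw [← hL, hu3, hr5, hat]
  · rw [← haa, hrm, huu, ← div_eq_mul_inv, mul_div_assoc', div_le_iff₀ hr0]
    linarith
  · rw [← haa, hre, huu]
    have h1 : w ≤ a * (r⁻¹ * e) := by
      have h2 : a * (r⁻¹ * e) = a * e / r := by rw [div_eq_mul_inv]; ring
      rw [h2, le_div_iff₀ hr0]
      exact b2
    linarith
  · rw [← haa, hrm]
    exact huss
  · rw [← hL, ha4, hR2]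
    calc (uu R t l) ^ 4 * L = (uu R t l) ^ 3 * L * uu R t l := by ring
      _ = 27 * (a ^ 3 * r ^ 5) * uu R t l := by rw [hu3]
      _ ≤ 27 * (a ^ 3 * r ^ 5) * (15 * C0 ^ 5 * (a * r⁻¹)) :=
          mul_le_mul_of_nonneg_left huss (by positivity)
      _ = 405 * C0 ^ 5 * (a ^ 4 * r ^ 4) * (r * r⁻¹) := by ring
      _ = 405 * C0 ^ 5 * (a ^ 4 * r ^ 4) := by rw [mul_inv_cancel₀ hr0.ne', mul_one]
  · rw [← hq]
    exact hHT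
  · rw [← hq, ha2]
    have h1 : t * R ^ (5 / 2 : ℝ) / (T * uu R t l * q)
        = t * R ^ (5 / 2 : ℝ) / (T * q) / uu R t l := by
      rw [div_div]; ring_nf
    rw [h1, div_le_iff₀ hu0]
    refine hHT.trans ?_
    rw [hrm, huu, hat]
    have h2 : a * r⁻¹ ≤ C0 * w := by
      rw [← div_eq_mul_inv, div_le_iff₀ hr0]
      linarith
    calc C0 ^ 2 * (a ^ 3 * r⁻¹) = C0 ^ 2 * a ^ 2 * (a * r⁻¹) := by ring
      _ ≤ C0 ^ 2 * a ^ 2 * (C0 * w) := mul_le_mul_of_nonneg_left h2 (by positivity)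
      _ = C0 ^ 3 * a ^ 2 * w := by ring
      _ ≤ C0 ^ 3 * a ^ 2 * (3 * w) := mul_le_mul_of_nonneg_left (by linarith) (by positivity)

end Pool.Agent.PP5LZ
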