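import Pool.Agent.PP5LZ.Pg
import Pool.Agent.PP5LZ.Bx

/-!
# LB5, section Z, module Zb (size 4): the cheap bound

PROOF.  Case A: `t^(4/3) R² < C0`.  Then `t ≤ C0 R^(-3/2)` (`(C0 R^(-2))^(3/4) ≤ C0 R^(-3/2)`), `H = t R^(5/2) ≤ C0 R`, `|v i| ≤ H / l i ≤ C0 R^δ`, so
`#V ≤ (2 C0 R^δ + 1)^4 ≤ 81 C0^4 R^(4δ)`.
Case B: `C0 ≤ t^(4/3) R²`.  For `v ∈ V` choose `m` by `pg`; `M` = the set of these `m`.  `PP5Q.msum` with `Y = 3 C0 R^4`, `H = t R^(5/2)`, `u = uu R t l`: the hypotheses are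
`l i ≤ C0 R^(1+3δ) ≤ Y`, `1 / Y ≤ T`, `u ≤ Y` (`u ≤ 3 t^(1/3) R^(-1/2+4δ/3) ≤ 3 R^(1/3)`), the class bound is `Bd` of `bxn` (constant `c/8`), `M.card` by `bxc`:
`#V ≤ C1 Y^(c/8) (32805 C0^9 R^(4δ) t^(4/3) R² + C2 R^(c/2+8δ) t^(4/3) (1 + t^(2/3)) R²)`, `Y^(c/8) ≤ 3 C0 R^(c/2)`.
-/

set_option autoImplicit false

namespace Pool.Agent.PP5LZ

open Matrix Finset Pool.Agent.PP5B Pool.Agent.PP5

private theorem Zb_box {B : ℝ} (hB : 0 ≤ B) (V : Finset (Fin 4 → ℤ))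
    (h : ∀ v ∈ V, ∀ i, |(v i : ℝ)| ≤ B) : (V.card : ℝ) ≤ (2 * B + 1) ^ 4 := by
  classical
  have h1 : V ⊆ Fintype.piFinset (fun _ : Fin 4 => Finset.Icc (-⌊B⌋) ⌊B⌋) := by
    intro m hm
    rw [Fintype.mem_piFinset]
    intro i
    rw [Finset.mem_Icc]
    have h2 := abs_le.1 (h m hm i)
    constructor
    · have h2' : -(m i) ≤ ⌊B⌋ := by
        rw [Int.le_floor]
        push_cast
        linarith [h2.1]
      omega
    · rw [Int.le_floor]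
      exact h2.2
  have h3 := Finset.card_le_card h1
  rw [Fintype.card_piFinset] at h3
  have h4 : ((Finset.Icc (-⌊B⌋) ⌊B⌋).card : ℝ) ≤ 2 * B + 1 := by
    have h5 : 0 ≤ ⌊B⌋ := Int.floor_nonneg.2 hB
    rw [Int.card_Icc]
    have h6 : (((⌊B⌋ + 1 - -⌊B⌋).toNat : ℕ) : ℤ) = 2 * ⌊B⌋ + 1 := by
      rw [Int.toNat_of_nonneg (by omega)]; ring
    have h7 : (((⌊B⌋ + 1 - -⌊B⌋).toNat : ℕ) : ℝ) = 2 * (⌊B⌋ : ℝ) + 1 := by exact_mod_cast h6
    rw [h7]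
    have := Int.floor_le B
    linarith
  calc (V.card : ℝ) ≤ ((∏ _i : Fin 4, (Finset.Icc (-⌊B⌋) ⌊B⌋).card : ℕ) : ℝ) := by
        exact_mod_cast h3
    _ = ((Finset.Icc (-⌊B⌋) ⌊B⌋).card : ℝ) ^ 4 := by
        rw [Finset.prod_const, Finset.card_univ, Fintype.card_fin]
        push_cast
        rfl
    _ ≤ (2 * B + 1) ^ 4 := pow_le_pow_left₀ (by positivity) h4 4

theorem zb (c : ℝ) (hc : 0 < c) (hc1 : c ≤ 1) (C0 : ℝ) (hC0 : 1 ≤ C0) : ∃ C : ℝ, 1 ≤ C ∧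
    ∀ (R δ t T : ℝ) (x : Fin 10 → ℤ) (G : Matrix (Fin 4) (Fin 4) ℤ) (l : Fin 4 → ℝ),
    1 ≤ R → 0 ≤ δ → δ ≤ 1 / 100 → 0 < t → t ≤ R → ZD C0 R δ T x G l →
    ∀ V : Finset (Fin 4 → ℤ), (∀ v ∈ V, Ze G l (t * R ^ (5 / 2 : ℝ)) v) →
    (V.card : ℝ) ≤ C * R ^ (c + 8 * δ) * (t ^ (4 / 3 : ℝ) * (1 + t ^ (2 / 3 : ℝ)) * R ^ 2 + 1) := by
  classical
  obtain ⟨C1, hC1, hms⟩ := PP5Q.msum (c / 8) (by positivity) C0 hC0
  obtain ⟨C2, hC2, hbn⟩ := bxn (c / 8) (by positivity) C0 hC0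
  have hC00 : 0 < C0 := by linarith
  refine ⟨81 * C0 ^ 4 + C1 * (3 * C0) * (32805 * C0 ^ 9 + C2), ?_, ?_⟩
  · have e1 : 1 ≤ C0 ^ 4 := one_le_pow₀ hC0
    have e2 : 0 ≤ C1 * (3 * C0) * (32805 * C0 ^ 9 + C2) := by positivity
    linarith
  intro R δ t T x G l hR hδ hδ1 ht htR hZ V hV
  have hR0 : 0 < R := by linarith
  have hδ2 : δ ≤ 1 := by linarith
  have hA := ra hC0 hR hδ hδ2 hZ
  have hP' : 0 ≤ t ^ (4 / 3 : ℝ) * (1 + t ^ (2 / 3 : ℝ)) * R ^ 2 := by positivity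
  have hE : 1 ≤ R ^ (c + 8 * δ) := Real.one_le_rpow hR (by positivity)
  rcases lt_or_ge (t ^ (4 / 3 : ℝ) * R ^ 2) C0 with hlt | hge
  · -- Case A
    have ht1 : t ≤ C0 * R ^ (-(3 / 2) : ℝ) := by
      by_contra hcon
      push Not at hcon
      have e1 : (C0 * R ^ (-(3 / 2) : ℝ)) ^ (4 / 3 : ℝ) ≤ t ^ (4 / 3 : ℝ) :=
        Real.rpow_le_rpow (by positivity) hcon.le (by norm_num)
      have e2 : (C0 * R ^ (-(3 / 2) : ℝ)) ^ (4 / 3 : ℝ) = C0 ^ (4 / 3 : ℝ) * R ^ (-(2 : ℝ)) := by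
        rw [Real.mul_rpow hC00.le (by positivity), ← Real.rpow_mul hR0.le]
        congr 2
        norm_num
      have e3 : C0 ≤ C0 ^ (4 / 3 : ℝ) := by
        calc C0 = C0 ^ (1 : ℝ) := (Real.rpow_one _).symm
          _ ≤ C0 ^ (4 / 3 : ℝ) := Real.rpow_le_rpow_of_exponent_le hC0 (by norm_num)
      have e4 : R ^ (-(2 : ℝ)) * R ^ 2 = 1 := by
        rw [Real.rpow_neg hR0.le]
        have : R ^ (2 : ℝ) = R ^ 2 := by norm_cast
        rw [this]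
        field_simp
      have e5 : C0 ≤ t ^ (4 / 3 : ℝ) * R ^ 2 := by
        calc C0 ≤ C0 ^ (4 / 3 : ℝ) := e3
          _ = C0 ^ (4 / 3 : ℝ) * (R ^ (-(2 : ℝ)) * R ^ 2) := by rw [e4, mul_one]
          _ = (C0 ^ (4 / 3 : ℝ) * R ^ (-(2 : ℝ))) * R ^ 2 := by ring
          _ ≤ t ^ (4 / 3 : ℝ) * R ^ 2 := by
            rw [← e2]
            exact mul_le_mul_of_nonneg_right e1 (by positivity)
      linarith
    have hH : t * R ^ (5 / 2 : ℝ) ≤ C0 * R := by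
      calc t * R ^ (5 / 2 : ℝ) ≤ C0 * R ^ (-(3 / 2) : ℝ) * R ^ (5 / 2 : ℝ) :=
            mul_le_mul_of_nonneg_right ht1 (by positivity)
        _ = C0 * (R ^ (-(3 / 2) : ℝ) * R ^ (5 / 2 : ℝ)) := by ring
        _ = C0 * R := by
            rw [← Real.rpow_add hR0]
            norm_num
    have hbx : ∀ v ∈ V, ∀ i, |(v i : ℝ)| ≤ C0 * R ^ δ := by
      intro v hv i
      have e1 := (hV v hv).2.2 i
      have e2 := hA.lo i
      have e3 : 0 < R ^ (1 - δ) := by positivity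
      have e4 : |(v i : ℝ)| * R ^ (1 - δ) ≤ C0 * R :=
        (mul_le_mul_of_nonneg_left e2 (abs_nonneg _)).trans (e1.trans hH)
      have e5 : C0 * R = C0 * R ^ δ * R ^ (1 - δ) := by
        rw [mul_assoc, ← Real.rpow_add hR0]
        norm_num
      rw [e5] at e4
      exact le_of_mul_le_mul_right e4 e3
    have hc4 := Zb_box (by positivity) V hbx
    have e1 : 1 ≤ C0 * R ^ δ := one_le_mul_of_one_le_of_one_le hC0 (Real.one_le_rpow hR hδ)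
    have e2 : (2 * (C0 * R ^ δ) + 1) ^ 4 ≤ (3 * (C0 * R ^ δ)) ^ 4 :=
      pow_le_pow_left₀ (by positivity) (by linarith) 4
    have e3 : (3 * (C0 * R ^ δ)) ^ 4 = 81 * C0 ^ 4 * R ^ (4 * δ) := by
      have : R ^ (4 * δ) = (R ^ δ) ^ 4 := by
        rw [← Real.rpow_natCast, ← Real.rpow_mul hR0.le]
        congr 1
        push_cast; ring
      rw [this]; ring
    have e4 : R ^ (4 * δ) ≤ R ^ (c + 8 * δ) := Real.rpow_le_rpow_of_exponent_le hR (by linarith)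
    have e5 : (V.card : ℝ) ≤ 81 * C0 ^ 4 * R ^ (c + 8 * δ) :=
      hc4.trans (e2.trans (e3.le.trans (mul_le_mul_of_nonneg_left e4 (by positivity))))
    have e6 : 0 ≤ C1 * (3 * C0) * (32805 * C0 ^ 9 + C2) := by positivity
    calc (V.card : ℝ) ≤ 81 * C0 ^ 4 * R ^ (c + 8 * δ) * 1 := by rw [mul_one]; exact e5
      _ ≤ (81 * C0 ^ 4 + C1 * (3 * C0) * (32805 * C0 ^ 9 + C2)) * R ^ (c + 8 * δ) *
          (t ^ (4 / 3 : ℝ) * (1 + t ^ (2 / 3 : ℝ)) * R ^ 2 + 1) := by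
          apply mul_le_mul _ (by linarith) (by norm_num) (by positivity)
          apply mul_le_mul_of_nonneg_right _ (by positivity)
          linarith
  · -- Case B
    have hB := rb hC0 hR hδ hδ2 ht hZ
    have hH0 : 0 < t * R ^ (5 / 2 : ℝ) := by positivity
    set Y : ℝ := 3 * C0 * R ^ 4 with hYd
    have hR4 : 1 ≤ R ^ 4 := one_le_pow₀ hR
    have hY1 : 1 ≤ Y := by
      rw [hYd]
      nlinarith
    have hY0 : 0 < Y := by linarith
    have hlY : ∀ i, l i ≤ Y := by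
      intro i
      refine (hA.lup i).trans ?_
      have e1 : R ^ (1 + 3 * δ) ≤ R ^ (4 : ℝ) :=
        Real.rpow_le_rpow_of_exponent_le hR (by linarith)
      have e2 : R ^ (4 : ℝ) = R ^ 4 := by norm_cast
      rw [e2] at e1
      calc C0 * R ^ (1 + 3 * δ) ≤ C0 * R ^ 4 := mul_le_mul_of_nonneg_left e1 hC00.le
        _ ≤ 3 * C0 * R ^ 4 := by nlinarith
    have hTY : 1 / Y ≤ T := by
      have e1 : 1 ≤ C0 * T := hR.trans hZ.Tlo
      have hT0 : 0 < T := by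
        by_contra hcon
        push Not at hcon
        nlinarith
      rw [div_le_iff₀ hY0]
      have e2 : C0 ≤ Y := by rw [hYd]; nlinarith
      calc (1 : ℝ) ≤ C0 * T := e1
        _ ≤ Y * T := mul_le_mul_of_nonneg_right e2 hT0.le
        _ = T * Y := mul_comm _ _
    have huY : uu R t l ≤ Y := by
      refine hB.uup.trans ?_
      have e1 : t ^ (1 / 3 : ℝ) ≤ R ^ (1 / 3 : ℝ) := Real.rpow_le_rpow ht.le htR (by norm_num)
      have e2 : R ^ (1 / 3 : ℝ) * R ^ (-(1 / 2) + 4 / 3 * δ) ≤ R ^ (4 : ℝ) := by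
        rw [← Real.rpow_add hR0]
        exact Real.rpow_le_rpow_of_exponent_le hR (by linarith)
      have e3 : R ^ (4 : ℝ) = R ^ 4 := by norm_cast
      have e4 : t ^ (1 / 3 : ℝ) * R ^ (-(1 / 2) + 4 / 3 * δ) ≤ R ^ 4 := by
        rw [← e3]
        exact (mul_le_mul_of_nonneg_right e1 (by positivity)).trans e2
      calc 3 * (t ^ (1 / 3 : ℝ) * R ^ (-(1 / 2) + 4 / 3 * δ)) ≤ 3 * R ^ 4 := by linarith
        _ ≤ 3 * C0 * R ^ 4 := by nlinarith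
    obtain ⟨Bd, hBd0, hBd1, hBd2⟩ := hbn R δ t T x G l hR hδ hδ1 ht htR hge hZ
    have hex : ∀ v : Fin 4 → ℤ, ∃ m : Fin 4 → ℤ, v ∈ V → (Pr4 m ∧ m ⬝ᵥ v = 0 ∧
        ∀ i, |(m i : ℝ)| ≤ uu R t l * l i) := by
      intro v
      by_cases hv : v ∈ V
      · obtain ⟨m, hm⟩ := pg hC0 hR hδ hδ2 ht hge hZ (hV v hv)
        exact ⟨m, fun _ => hm⟩
      · exact ⟨0, fun h => absurd h hv⟩
    choose mf hmf using hex
    set M : Finset (Fin 4 → ℤ) := V.image mf with hM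
    have hM1 : ∀ m ∈ M, Pr4 m ∧ ∀ i, |(m i : ℝ)| ≤ uu R t l * l i := by
      intro m hm
      obtain ⟨v, hv, rfl⟩ := Finset.mem_image.1 hm
      exact ⟨(hmf v hv).1, (hmf v hv).2.2⟩
    have hMc := bxc hC0 hR hδ hδ1 ht hge hZ M (fun m hm => (hM1 m hm).2)
    have hres := hms G l T Y (t * R ^ (5 / 2 : ℝ)) (uu R t l) hZ.gh hA.nsq hY1 hlY hTY hH0 hB.u0
      huY M hM1 Bd hBd0
      (fun s u' X hXM hXn hs hu' hu2 hX => hBd1 s u' X hXn hs hu' hu2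
        (fun m hm => ⟨(hM1 m (hXM hm)).1, (hX m hm).1, (hX m hm).2.1, (hX m hm).2.2.1⟩))
      V (fun v hv => ⟨(hV v hv).1, (hV v hv).2.1, (hV v hv).2.2, mf v,
        Finset.mem_image_of_mem _ hv, (hmf v hv).2.1⟩)
    have hYc : Y ^ (c / 8) ≤ 3 * C0 * R ^ (c / 2) := by
      rw [hYd, Real.mul_rpow (by positivity) (by positivity)]
      have e1 : (3 * C0) ^ (c / 8) ≤ 3 * C0 := by
        calc (3 * C0) ^ (c / 8) ≤ (3 * C0) ^ (1 : ℝ) :=
              Real.rpow_le_rpow_of_exponent_le (by linarith) (by linarith)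
          _ = 3 * C0 := Real.rpow_one _
      have e2 : (R ^ 4) ^ (c / 8) = R ^ (c / 2) := by
        rw [← Real.rpow_natCast, ← Real.rpow_mul hR0.le]
        congr 1
        push_cast; ring
      rw [e2]
      exact mul_le_mul_of_nonneg_right e1 (by positivity)
    set P' : ℝ := t ^ (4 / 3 : ℝ) * (1 + t ^ (2 / 3 : ℝ)) * R ^ 2 with hP'd
    have hPP : t ^ (4 / 3 : ℝ) * R ^ 2 ≤ P' := by
      rw [hP'd]
      have e1 : 0 ≤ t ^ (2 / 3 : ℝ) := by positivity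
      have e2 : 0 ≤ t ^ (4 / 3 : ℝ) * R ^ 2 := by positivity
      nlinarith
    have f1 : R ^ (c / 2) * (32805 * C0 ^ 9 * (R ^ (4 * δ) * (t ^ (4 / 3 : ℝ) * R ^ 2))) ≤
        32805 * C0 ^ 9 * (R ^ (c + 8 * δ) * P') := by
      have e1 : R ^ (c / 2) * R ^ (4 * δ) ≤ R ^ (c + 8 * δ) := by
        rw [← Real.rpow_add hR0]
        exact Real.rpow_le_rpow_of_exponent_le hR (by linarith)
      calc R ^ (c / 2) * (32805 * C0 ^ 9 * (R ^ (4 * δ) * (t ^ (4 / 3 : ℝ) * R ^ 2)))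
          = 32805 * C0 ^ 9 * ((R ^ (c / 2) * R ^ (4 * δ)) * (t ^ (4 / 3 : ℝ) * R ^ 2)) := by ring
        _ ≤ 32805 * C0 ^ 9 * (R ^ (c + 8 * δ) * P') := by
            apply mul_le_mul_of_nonneg_left _ (by positivity)
            exact mul_le_mul e1 hPP (by positivity) (by positivity)
    have f2 : R ^ (c / 2) * (t * R ^ (5 / 2 : ℝ) / (T * √|(G.det : ℝ)|) * Bd) ≤
        C2 * (R ^ (c + 8 * δ) * P') := by
      calc R ^ (c / 2) * (t * R ^ (5 / 2 : ℝ) / (T * √|(G.det : ℝ)|) * Bd)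
          ≤ R ^ (c / 2) * (C2 * R ^ (4 * (c / 8) + 8 * δ) * P') :=
            mul_le_mul_of_nonneg_left hBd2 (by positivity)
        _ = C2 * ((R ^ (c / 2) * R ^ (4 * (c / 8) + 8 * δ)) * P') := by ring
        _ = C2 * (R ^ (c + 8 * δ) * P') := by
            rw [← Real.rpow_add hR0]
            have e9 : c / 2 + (4 * (c / 8) + 8 * δ) = c + 8 * δ := by ring
            rw [e9]
    have hMB : 0 ≤ (M.card : ℝ) + t * R ^ (5 / 2 : ℝ) / (T * √|(G.det : ℝ)|) * Bd := by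
      have hT0 : 0 < T := by
        have e1 : 1 ≤ C0 * T := hR.trans hZ.Tlo
        by_contra hcon
        push Not at hcon
        nlinarith
      positivity
    calc (V.card : ℝ) ≤ C1 * Y ^ (c / 8) *
          (M.card + t * R ^ (5 / 2 : ℝ) / (T * √|(G.det : ℝ)|) * Bd) := hres
      _ ≤ C1 * (3 * C0 * R ^ (c / 2)) *
          (M.card + t * R ^ (5 / 2 : ℝ) / (T * √|(G.det : ℝ)|) * Bd) := by
          apply mul_le_mul_of_nonneg_right _ hMB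
          exact mul_le_mul_of_nonneg_left hYc (by positivity)
      _ = C1 * (3 * C0) * (R ^ (c / 2) * M.card +
          R ^ (c / 2) * (t * R ^ (5 / 2 : ℝ) / (T * √|(G.det : ℝ)|) * Bd)) := by ring
      _ ≤ C1 * (3 * C0) * (32805 * C0 ^ 9 * (R ^ (c + 8 * δ) * P') +
          C2 * (R ^ (c + 8 * δ) * P')) := by
          apply mul_le_mul_of_nonneg_left _ (by positivity)
          apply add_le_add _ f2
          exact (mul_le_mul_of_nonneg_left hMc (by positivity)).trans f1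
      _ = C1 * (3 * C0) * (32805 * C0 ^ 9 + C2) * R ^ (c + 8 * δ) * P' := by ring
      _ ≤ (81 * C0 ^ 4 + C1 * (3 * C0) * (32805 * C0 ^ 9 + C2)) * R ^ (c + 8 * δ) * (P' + 1) := by
          have g1 : 0 ≤ 81 * C0 ^ 4 := by positivity
          apply mul_le_mul _ (by linarith) hP' (by positivity)
          apply mul_le_mul_of_nonneg_right _ (by positivity)
          linarith

end Pool.Agent.PP5LZ
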