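import Pool.Agent.PP5LZ.Rb
import Pool.Agent.PP5S.Ysm

/-!
# LB5, section Z, module Zp (size 4): the parameters of `per_x`

`y = R^(5/2)`; `h = ⌈R^(1/20)⌉₊`, `κp = R^(-1/20)`, `2^J0 ∈ [R^a, 2 R^a]`(`J0 = Nat.clog 2 ⌈R^a⌉₊`, so `2^J0 < 2 ⌈R^a⌉₊ ≤ 4 R^a`), `J = ⌈Real.logb 2 (R^5)⌉₊`.
Compare PP5S/Yoe.lean (`Yo_exists`, the same choice at `y`) and PP5S/Ysm.lean (`pw1`, `pw2`: powers of `y` for large `y`).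
PROOF.  `k1`: `κp u l i / 2^J0 ≥ R^(-1/20) · (3 / C0) t^(1/3) R^(-1/2) · R^(1-δ) / (4 R^a) ≥ (3 / (4 C0)) R^(1/2 - 1/20 - κ/3 - δ - a) ≥ 2 R^(1/20) ≥ h` for large `R`
(`a ≤ 1/10`, `κ ≤ 1/100`, `δ ≤ 1/100`: the exponent is `≥ 1/2 - 1/20 - 1/300 - 1/100 - 1/10 > 1/20`).
`k2`: `24 C0³ Λ² / T³ u² ≤ 24 C0³ · C0² R^8 · C0³ / R³ · 225 C0^10 t^(2/3) R^(-1) ≤ const R^(4 + 2κ/3)`, so `16 ·` it is `≤ R^5 ≤ 2^J` for large `R` (`uss`).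
`k3`: `J ≤ 8 log R + 1`, `√κp = R^(-1/40)`.  `k4`: `y^(1/50) = R^(1/20) ≤ h`.  `k5`: `2 |D| ≤ 48 C0^10 R^4 ≤ R^5 = y^2`
(`PP5C.D2 x = 2 |D x|` as a natural number: unfold `PP5C.D2`, `PP5S.DX_eq`, as in PP5S/Sh2.lean, `one_x`).  `k6`: the bound `D2_le`.
`k7`: the logarithm: `Λ² / (T^4 D) ≤ C0² R^8 · C0^4 / R^4 · C0 / R^4 = C0^7`.
-/

set_option autoImplicit false

namespace Pool.Agent.PP5LZ

open Matrix Finset Pool.Agent.PP5B Pool.Agent.PP5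

/-- the parameters at `R` -/
structure ZP (C0 a δ κ R : ℝ) (h J0 J : ℕ) (κp : ℝ) : Prop where
  R1 : 1 ≤ R
  hh : 0 < h
  κ0 : 0 < κp
  κ1 : κp ≤ 1
  k3 : (J : ℝ) * √κp ≤ 1
  k4 : (R ^ (5 / 2 : ℝ)) ^ (1 / 50 : ℝ) ≤ (h : ℝ)
  kJ : R ^ a ≤ 2 ^ J0
  all : ∀ (t T : ℝ) (x : Fin 10 → ℤ) (G : Matrix (Fin 4) (Fin 4) ℤ) (l : Fin 4 → ℝ),
    R ^ (-κ) ≤ t → t ≤ R ^ κ → ZD C0 R δ T x G l →
    (∀ i, (h : ℝ) ≤ κp * (uu R t l / 2 ^ J0 * l i)) ∧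
    24 * C0 ^ 3 * (∏ i, l i) ^ 2 / T ^ 3 * (uu R t l) ^ 2 ≤ 2 ^ J ∧
    (PP5C.D2 x : ℝ) ≤ (R ^ (5 / 2 : ℝ)) ^ (2 : ℝ) ∧
    (∀ m : Fin 4 → ℤ, (∀ i, |(m i : ℝ)| ≤ uu R t l * l i) →
      |(D2 G m : ℝ)| ≤ (R ^ (5 / 2 : ℝ)) ^ (2 : ℝ)) ∧
    (∏ i, l i) ^ 2 / (T ^ 4 * |(G.det : ℝ)|) ≤ C0 ^ 7

private theorem zp_pow {R : ℝ} (hR : 0 < R) : (R ^ (5 / 2 : ℝ)) ^ (2 : ℝ) = R ^ 5 := by
  rw [← Real.rpow_mul hR.le, ← Real.rpow_natCast]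
  norm_num

private theorem zp_J0 {R a : ℝ} (hR : 1 ≤ R) (ha : 0 < a) :
    R ^ a ≤ (2 : ℝ) ^ (Nat.clog 2 ⌈R ^ a⌉₊) ∧ (2 : ℝ) ^ (Nat.clog 2 ⌈R ^ a⌉₊) ≤ 4 * R ^ a := by
  have h1 : 1 ≤ R ^ a := Real.one_le_rpow hR ha.le
  constructor
  · have h2 : ⌈R ^ a⌉₊ ≤ 2 ^ (Nat.clog 2 ⌈R ^ a⌉₊) := Nat.le_pow_clog (by norm_num) _
    have h3 : ((⌈R ^ a⌉₊ : ℕ) : ℝ) ≤ (2 : ℝ) ^ (Nat.clog 2 ⌈R ^ a⌉₊) := by exact_mod_cast h2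
    exact (Nat.le_ceil _).trans h3
  · rcases Nat.lt_or_ge 1 ⌈R ^ a⌉₊ with h2 | h2
    · have h3 := Nat.pow_pred_clog_lt_self (b := 2) (by norm_num) h2
      have h4 : 0 < Nat.clog 2 ⌈R ^ a⌉₊ := Nat.clog_pos (by norm_num) h2
      have h5 : (2 : ℕ) ^ (Nat.clog 2 ⌈R ^ a⌉₊) = 2 * 2 ^ (Nat.clog 2 ⌈R ^ a⌉₊).pred := by
        rw [← pow_succ']
        congr 1
        exact (Nat.succ_pred_eq_of_pos h4).symm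
      have h6 : (2 : ℕ) ^ (Nat.clog 2 ⌈R ^ a⌉₊) ≤ 2 * ⌈R ^ a⌉₊ := by
        rw [h5]
        exact Nat.mul_le_mul_left 2 h3.le
      have h7 : (2 : ℝ) ^ (Nat.clog 2 ⌈R ^ a⌉₊) ≤ 2 * (⌈R ^ a⌉₊ : ℝ) := by exact_mod_cast h6
      have h8 : (⌈R ^ a⌉₊ : ℝ) < R ^ a + 1 := Nat.ceil_lt_add_one (by linarith)
      linarith
    · have h3 : Nat.clog 2 ⌈R ^ a⌉₊ = 0 := Nat.clog_of_right_le_one h2 2
      rw [h3, pow_zero]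
      linarith

private theorem zp_J {R : ℝ} (hR : 1 ≤ R) :
    R ^ 5 ≤ (2 : ℝ) ^ ⌈Real.logb 2 (R ^ 5)⌉₊ ∧
      ((⌈Real.logb 2 (R ^ 5)⌉₊ : ℕ) : ℝ) ≤ 8 * Real.log R + 8 := by
  have hR0 : 0 < R := by linarith
  have hR5 : (1 : ℝ) ≤ R ^ 5 := one_le_pow₀ hR
  constructor
  · have h1 : Real.logb 2 (R ^ 5) ≤ (⌈Real.logb 2 (R ^ 5)⌉₊ : ℝ) := Nat.le_ceil _
    have h2 := (Real.logb_le_iff_le_rpow (by norm_num : (1 : ℝ) < 2) (by positivity)).1 h1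
    rwa [Real.rpow_natCast] at h2
  · have h0 : 0 ≤ Real.logb 2 (R ^ 5) := Real.logb_nonneg (by norm_num) hR5
    have h1 : (⌈Real.logb 2 (R ^ 5)⌉₊ : ℝ) < Real.logb 2 (R ^ 5) + 1 := Nat.ceil_lt_add_one h0
    have h2 : Real.logb 2 (R ^ 5) ≤ 8 * Real.log R := by
      rw [Real.logb, Real.log_pow, div_le_iff₀ (Real.log_pos (by norm_num))]
      have h3 := Real.log_two_gt_d9
      have h4 : 0 ≤ Real.log R := Real.log_nonneg hR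
      push_cast
      nlinarith
    linarith

private theorem zp_big {C0 R δ t T κ : ℝ} {x : Fin 10 → ℤ} {G : Matrix (Fin 4) (Fin 4) ℤ}
    {l : Fin 4 → ℝ} (hC0 : 1 ≤ C0) (hR : 1 ≤ R) (ht : 0 < t) (hκ1 : κ ≤ 1 / 100)
    (htR : t ≤ R ^ κ) (h : ZD C0 R δ T x G l) (hrb : RB C0 R δ t T G l)
    (hra : RA C0 R δ T G l)
    (hbig : 86400 * C0 ^ 18 * R ^ (9 / 2 : ℝ) ≤ R ^ (5 : ℝ)) :
    16 * (24 * C0 ^ 3 * (∏ i, l i) ^ 2 / T ^ 3 * (uu R t l) ^ 2) ≤ R ^ 5 := by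
  have hR0 : 0 < R := by linarith
  have hC00 : 0 < C0 := by linarith
  have hT0 := h.gh.T0
  have hL0 := hra.Lp
  have hu0 := hrb.u0
  have h1 : (∏ i, l i) ^ 2 / T ^ 3 ≤ C0 ^ 5 * R ^ 5 := by
    rw [div_le_iff₀ (by positivity)]
    have h2 : (∏ i, l i) ^ 2 ≤ (C0 * R ^ 4) ^ 2 := pow_le_pow_left₀ hL0.le hra.Lup 2
    have h3 : R ^ 3 ≤ (C0 * T) ^ 3 := pow_le_pow_left₀ hR0.le h.Tlo 3
    calc (∏ i, l i) ^ 2 ≤ (C0 * R ^ 4) ^ 2 := h2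
      _ = C0 ^ 2 * R ^ 5 * R ^ 3 := by ring
      _ ≤ C0 ^ 2 * R ^ 5 * (C0 * T) ^ 3 := by gcongr
      _ = C0 ^ 5 * R ^ 5 * T ^ 3 := by ring
  have h4 : t ^ (1 / 3 : ℝ) ≤ R ^ (1 / 4 : ℝ) := by
    calc t ^ (1 / 3 : ℝ) ≤ (R ^ κ) ^ (1 / 3 : ℝ) := Real.rpow_le_rpow ht.le htR (by norm_num)
      _ = R ^ (κ * (1 / 3)) := by rw [← Real.rpow_mul hR0.le]
      _ ≤ R ^ (1 / 4 : ℝ) := Real.rpow_le_rpow_of_exponent_le hR (by linarith)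
  have h5 : uu R t l ≤ 15 * C0 ^ 5 * R ^ (-(1 / 4) : ℝ) := by
    calc uu R t l ≤ 15 * C0 ^ 5 * (t ^ (1 / 3 : ℝ) * R ^ (-(1 / 2) : ℝ)) := hrb.uss
      _ ≤ 15 * C0 ^ 5 * (R ^ (1 / 4 : ℝ) * R ^ (-(1 / 2) : ℝ)) := by gcongr
      _ = 15 * C0 ^ 5 * R ^ (-(1 / 4) : ℝ) := by
          rw [← Real.rpow_add hR0]
          norm_num
  have h6 : (uu R t l) ^ 2 ≤ 225 * C0 ^ 10 * R ^ (-(1 / 2) : ℝ) := by
    calc (uu R t l) ^ 2 ≤ (15 * C0 ^ 5 * R ^ (-(1 / 4) : ℝ)) ^ 2 :=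
          pow_le_pow_left₀ hu0.le h5 2
      _ = 225 * C0 ^ 10 * (R ^ (-(1 / 4) : ℝ)) ^ 2 := by ring
      _ = 225 * C0 ^ 10 * R ^ (-(1 / 2) : ℝ) := by
          rw [← Real.rpow_natCast (R ^ (-(1 / 4) : ℝ)), ← Real.rpow_mul hR0.le]
          norm_num
  have h7 : R ^ 5 * R ^ (-(1 / 2) : ℝ) = R ^ (9 / 2 : ℝ) := by
    rw [← Real.rpow_natCast, ← Real.rpow_add hR0]
    norm_num
  have h8 : R ^ (5 : ℝ) = R ^ 5 := by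
    rw [← Real.rpow_natCast]
    norm_num
  calc 16 * (24 * C0 ^ 3 * (∏ i, l i) ^ 2 / T ^ 3 * (uu R t l) ^ 2)
      = 384 * C0 ^ 3 * (((∏ i, l i) ^ 2 / T ^ 3) * (uu R t l) ^ 2) := by ring
    _ ≤ 384 * C0 ^ 3 * ((C0 ^ 5 * R ^ 5) * (225 * C0 ^ 10 * R ^ (-(1 / 2) : ℝ))) := by gcongr
    _ = 86400 * C0 ^ 18 * (R ^ 5 * R ^ (-(1 / 2) : ℝ)) := by ring
    _ = 86400 * C0 ^ 18 * R ^ (9 / 2 : ℝ) := by rw [h7]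
    _ ≤ R ^ (5 : ℝ) := hbig
    _ = R ^ 5 := h8

private theorem zp_one {C0 R δ t T κ a Q : ℝ} {hh : ℕ} {G : Matrix (Fin 4) (Fin 4) ℤ}
    {l : Fin 4 → ℝ} (hC0 : 1 ≤ C0) (hR : 1 ≤ R) (ha1 : a ≤ 1 / 10) (hδ1 : δ ≤ 1 / 100)
    (hκ1 : κ ≤ 1 / 100) (ht : R ^ (-κ) ≤ t) (hrb : RB C0 R δ t T G l) (hra : RA C0 R δ T G l)
    (hh2 : (hh : ℝ) ≤ 2 * R ^ (1 / 20 : ℝ)) (hQ0 : 0 < Q) (hQ : Q ≤ 4 * R ^ a)
    (hbig : 3 * C0 * R ^ (3 / 20 : ℝ) ≤ R ^ (2 / 5 : ℝ)) (i : Fin 4) :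
    (hh : ℝ) ≤ R ^ (-(1 / 20) : ℝ) * (uu R t l / Q * l i) := by
  have hR0 : 0 < R := by linarith
  have hC00 : 0 < C0 := by linarith
  have hu0 := hrb.u0
  have hl := hra.lo i
  have hl0 : 0 < R ^ (1 - δ) := by positivity
  have h1 : R ^ (-κ * (1 / 3)) ≤ t ^ (1 / 3 : ℝ) := by
    rw [Real.rpow_mul hR0.le]
    exact Real.rpow_le_rpow (by positivity) ht (by norm_num)
  have h2 : 3 * (R ^ (-κ * (1 / 3)) * R ^ (-(1 / 2) : ℝ)) ≤ C0 * uu R t l := by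
    refine le_trans ?_ hrb.ulo
    gcongr
  have h3 : 3 * R ^ (2 / 5 : ℝ) ≤ R ^ (-(1 / 20) : ℝ) * ((C0 * uu R t l) * l i) := by
    have h4 : 3 * R ^ (2 / 5 : ℝ) ≤ R ^ (-(1 / 20) : ℝ) *
        ((3 * (R ^ (-κ * (1 / 3)) * R ^ (-(1 / 2) : ℝ))) * R ^ (1 - δ)) := by
      have h5 : R ^ (-(1 / 20) : ℝ) *
        ((3 * (R ^ (-κ * (1 / 3)) * R ^ (-(1 / 2) : ℝ))) * R ^ (1 - δ)) =
          3 * R ^ (-(1 / 20) + (-κ * (1 / 3) + -(1 / 2) + (1 - δ))) := by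
        rw [Real.rpow_add hR0, Real.rpow_add hR0, Real.rpow_add hR0 (-κ * (1 / 3))]
        ring
      rw [h5]
      apply mul_le_mul_of_nonneg_left _ (by norm_num)
      exact Real.rpow_le_rpow_of_exponent_le hR (by linarith)
    refine h4.trans ?_
    gcongr
  have h6 : (hh : ℝ) * Q * C0 ≤ 3 * R ^ (2 / 5 : ℝ) := by
    have h7 : R ^ (1 / 20 : ℝ) * R ^ a ≤ R ^ (3 / 20 : ℝ) := by
      rw [← Real.rpow_add hR0]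
      exact Real.rpow_le_rpow_of_exponent_le hR (by linarith)
    calc (hh : ℝ) * Q * C0 ≤ (2 * R ^ (1 / 20 : ℝ)) * (4 * R ^ a) * C0 := by gcongr
      _ = 8 * C0 * (R ^ (1 / 20 : ℝ) * R ^ a) := by ring
      _ ≤ 8 * C0 * R ^ (3 / 20 : ℝ) := by gcongr
      _ ≤ 3 * (3 * C0 * R ^ (3 / 20 : ℝ)) := by
          have : 0 ≤ C0 * R ^ (3 / 20 : ℝ) := by positivity
          linarith
      _ ≤ 3 * R ^ (2 / 5 : ℝ) := by linarith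
  have h8 : (hh : ℝ) * (Q * C0) ≤ (R ^ (-(1 / 20) : ℝ) * (uu R t l / Q * l i)) * (Q * C0) := by
    have e : (R ^ (-(1 / 20) : ℝ) * (uu R t l / Q * l i)) * (Q * C0) =
        R ^ (-(1 / 20) : ℝ) * ((C0 * uu R t l) * l i) := by
      field_simp
    rw [e, ← mul_assoc]
    exact h6.trans h3
  exact le_of_mul_le_mul_right h8 (by positivity)

theorem zp {C0 a δ κ : ℝ} (hC0 : 1 ≤ C0) (ha : 0 < a) (ha1 : a ≤ 1 / 10) (hδ : 0 ≤ δ)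
    (hδ1 : δ ≤ 1 / 100) (hκ : 0 ≤ κ) (hκ1 : κ ≤ 1 / 100) : ∃ R0 : ℝ, 1 ≤ R0 ∧ ∀ R : ℝ, R0 ≤ R →
    ∃ (h J0 J : ℕ) (κp : ℝ), ZP C0 a δ κ R h J0 J κp := by
  have hC00 : 0 < C0 := by linarith
  obtain ⟨R1, hR11, hR1⟩ := PP5S.pw1 (3 / 20) (2 / 5) (3 * C0) (by norm_num)
  obtain ⟨R2, hR21, hR2⟩ := PP5S.pw1 (9 / 2) 5 (86400 * C0 ^ 18) (by norm_num)
  obtain ⟨R3, hR31, hR3⟩ := PP5S.pw2 (1 / 40) 8 (by norm_num)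
  obtain ⟨R4, hR41, hR4⟩ := PP5S.pw1 4 5 (48 * C0 ^ 10) (by norm_num)
  refine ⟨max (max R1 R2) (max R3 R4), le_max_of_le_left (le_max_of_le_left hR11), ?_⟩
  intro R hR
  have a1 := hR1 R ((le_max_left _ _).trans ((le_max_left _ _).trans hR))
  have a2 := hR2 R ((le_max_right _ _).trans ((le_max_left _ _).trans hR))
  have a3 := hR3 R ((le_max_left _ _).trans ((le_max_right _ _).trans hR))
  have a4 := hR4 R ((le_max_right _ _).trans ((le_max_right _ _).trans hR))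
  have hR1' : 1 ≤ R := hR11.trans ((le_max_left _ _).trans ((le_max_left _ _).trans hR))
  have hR0 : 0 < R := by linarith
  obtain ⟨j1, j2⟩ := zp_J0 hR1' ha
  obtain ⟨j3, j4⟩ := zp_J hR1'
  have hr20 : 1 ≤ R ^ (1 / 20 : ℝ) := Real.one_le_rpow hR1' (by norm_num)
  refine ⟨⌈R ^ (1 / 20 : ℝ)⌉₊, Nat.clog 2 ⌈R ^ a⌉₊, ⌈Real.logb 2 (R ^ 5)⌉₊, R ^ (-(1 / 20) : ℝ),
    hR1', Nat.ceil_pos.2 (by linarith), by positivity,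
    Real.rpow_le_one_of_one_le_of_nonpos hR1' (by norm_num), ?_, ?_, j1, ?_⟩
  · have e : √(R ^ (-(1 / 20) : ℝ)) = (R ^ (1 / 40 : ℝ))⁻¹ := by
      rw [Real.sqrt_eq_rpow, ← Real.rpow_mul hR0.le, ← Real.rpow_neg hR0.le]
      norm_num
    rw [e, ← div_eq_mul_inv, div_le_one (by positivity)]
    exact j4.trans a3
  · rw [← Real.rpow_mul hR0.le]
    norm_num
    exact Nat.le_ceil _
  · intro t T x G l ht1 ht2 h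
    have ht : 0 < t := lt_of_lt_of_le (by positivity) ht1
    have hra := ra hC0 hR1' hδ (by linarith) h
    have hrb := rb hC0 hR1' hδ (by linarith) ht h
    have hT0 := h.gh.T0
    have hbig := zp_big hC0 hR1' ht hκ1 ht2 h hrb hra a2
    have hnn : 0 ≤ 24 * C0 ^ 3 * (∏ i, l i) ^ 2 / T ^ 3 * (uu R t l) ^ 2 := by
      have := hra.Lp
      positivity
    refine ⟨?_, ?_, ?_, ?_, ?_⟩
    · intro i
      refine zp_one hC0 hR1' ha1 hδ1 hκ1 ht1 hrb hra ?_ (by positivity) j2 a1 i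
      have : (⌈R ^ (1 / 20 : ℝ)⌉₊ : ℝ) < R ^ (1 / 20 : ℝ) + 1 :=
        Nat.ceil_lt_add_one (by positivity)
      linarith
    · linarith
    · rw [zp_pow hR0]
      have e : ((PP5C.DX x).natAbs : ℝ) = |(G.det : ℝ)| := by
        rw [PP5S.DX_eq, h.det, ← Int.cast_abs, Int.abs_eq_natAbs]
        rfl
      unfold PP5C.D2
      push_cast
      rw [e]
      have e4 : R ^ (4 : ℝ) = R ^ 4 := by
        rw [← Real.rpow_natCast]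
        norm_num
      have e5 : R ^ (5 : ℝ) = R ^ 5 := by
        rw [← Real.rpow_natCast]
        norm_num
      rw [e4, e5] at a4
      have := hra.Dup
      linarith
    · intro m hm
      rw [zp_pow hR0]
      exact (PP5S.D2_le hC00 hT0 hrb.u0 h.gh.lp h.gh.gram hm).trans hbig
    · have hD0 : 0 < |(G.det : ℝ)| := abs_pos.2 (by exact_mod_cast h.gh.dn)
      rw [div_le_iff₀ (by positivity)]
      have h2 : (∏ i, l i) ^ 2 ≤ (C0 * R ^ 4) ^ 2 := pow_le_pow_left₀ hra.Lp.le hra.Lup 2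
      have h3 : R ^ 4 ≤ (C0 * T) ^ 4 := pow_le_pow_left₀ hR0.le h.Tlo 4
      have h4 := hra.Dlo
      calc (∏ i, l i) ^ 2 ≤ (C0 * R ^ 4) ^ 2 := h2
        _ = C0 ^ 2 * (R ^ 4 * R ^ 4) := by ring
        _ ≤ C0 ^ 2 * ((C0 * T) ^ 4 * (C0 * |(G.det : ℝ)|)) := by gcongr
        _ = C0 ^ 7 * (T ^ 4 * |(G.det : ℝ)|) := by ring

end Pool.Agent.PP5LZ
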